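import Pool.Agent.Y644.QV.Gen
import Pool.Agent.Y644.QW.WMach
set_option autoImplicit false

/-!
# The run of the shadow vertex algorithm
-/

namespace Pool.Agent.Y644.QV

open scoped InnerProductSpace
open Pool.Agent.Y644.QS Pool.Agent.Y644.QW Pool.Agent.H687R2.LLL Pool.Agent.NPC

variable {c : List ℤ} {J : List (List ℤ)} {v v₀ w w' : List ℤ}

theorem dd_data (hc : 0 < c.length) {cp : List ℤ} (hcp : cp.length = c.length)
    (hJ : Len c.length J) (hv : Vx c [] J v) {lam : ℝ} (hopt : DirOpt c cp J v lam)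
    (h : shstep c cp J v = some w) : DD c J v (pdir c cp J v) := by
  unfold shstep at h
  split_ifs at h with hf
  obtain ⟨p1, p2, p3, p4, -, -⟩ := pdir_spec hc hcp hJ hv hopt hf
  exact ⟨p1, p2, p3, p4⟩

/-- the rows tight at `v₀` determine a direction -/
theorem dir_zero (hJ : Len c.length J) (hv₀ : Vx c [] J v₀)
    {z : EuclideanSpace ℝ (Fin c.length)} (hz : rf c.length (tau c) z = 0)
    (h : ∀ r ∈ tight J v₀, rf c.length r z = 0) : z = 0 := by
  obtain ⟨s, hs⟩ := hv₀.ext.ker z (by simp) fun r hr h0 => h r ((mem_tight hJ hv₀.len).2 ⟨hr, h0⟩)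
  rw [hs, map_smul, smul_eq_mul] at hz
  rcases mul_eq_zero.1 hz with h1 | h1
  · rw [hs, h1, zero_smul]
  · exact absurd h1 hv₀.pos.ne'

theorem base_pos (c : List ℤ) (J : List (List ℤ)) : (0 : ℝ) < ((base c J : ℤ) : ℝ) := by
  unfold base
  push_cast
  positivity

theorem dirOpt_zero (hJ : Len c.length J) (hv₀ : Vx c [] J v₀) :
    DirOpt c (aux c J v₀) J v₀ 0 := by
  intro d hd
  rw [zero_mul, add_zero, rf_aux hJ]
  refine (hs_nonpos (base_pos c J) _ fun y hy => ?_).1
  obtain ⟨r, hr, rfl⟩ := List.mem_map.1 hy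
  obtain ⟨h1, h2⟩ := (mem_tight hJ hv₀.len).1 hr
  exact hd.2 r h1 h2

/-- the first parameter is positive -/
theorem lamv_pos (hc : 0 < c.length) (hJ : Len c.length J) (hτJ : negV (tau c) ∈ J)
    (hv₀ : Vx c [] J v₀) (h : shstep c (aux c J v₀) J v₀ = some w) :
    0 < lamv c (aux c J v₀) J v₀ := by
  have hcp := length_aux hJ v₀
  obtain ⟨-, s2, s3, s4, -, -⟩ := shstep_some hc hcp hJ hτJ hv₀ (dirOpt_zero hJ hv₀) h
  refine lt_of_le_of_ne s4 fun h0 => ?_
  have h1 : rf c.length (aux c J v₀) (dv c (aux c J v₀) J v₀) = 0 := by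
    have : lamv c (aux c J v₀) J v₀ * rf c.length c (dv c (aux c J v₀) J v₀) =
      -(rf c.length (aux c J v₀) (dv c (aux c J v₀) J v₀)) := div_mul_cancel₀ _ s3.ne'
    rw [← h0, zero_mul] at this
    linarith
  rw [rf_aux hJ] at h1
  have h2 := (hs_nonpos (base_pos c J) _ fun y hy => by
    obtain ⟨r, hr, rfl⟩ := List.mem_map.1 hy
    obtain ⟨h1, h2⟩ := (mem_tight hJ hv₀.len).1 hr
    exact s2.2 r h1 h2).2 h1
  have h3 := dir_zero hJ hv₀ s2.1 fun r hr => h2 _ (List.mem_map_of_mem hr)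
  rw [h3, map_zero] at s3
  exact lt_irrefl _ s3

/-- the parameters increase -/
theorem lamv_lt (hc : 0 < c.length) (hJ : Len c.length J) (hτJ : negV (tau c) ∈ J)
    (hv₀ : Vx c [] J v₀) (hv : Vx c [] J v) {lam : ℝ} (hopt : DirOpt c (aux c J v₀) J v lam)
    (h : shstep c (aux c J v₀) J v = some w) (hw : 0 < rf c.length (tau c) (lv c.length w))
    (h' : shstep c (aux c J v₀) J w = some w') :
    lamv c (aux c J v₀) J v < lamv c (aux c J v₀) J w := by
  have hcp := length_aux hJ v₀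
  obtain ⟨-, s2, s3, s4, -, s6⟩ := shstep_some hc hcp hJ hτJ hv hopt h
  obtain ⟨hwv, hopt', r, hr, r1, r2⟩ := s6 hw
  obtain ⟨-, t2, t3, t4, -, -⟩ := shstep_some hc hcp hJ hτJ hwv hopt' h'
  refine lt_of_le_of_ne t4 fun h0 => ?_
  set cp := aux c J v₀ with hcpd
  set d₁ := dv c cp J v with hd₁
  set d₂ := dv c cp J w with hd₂
  have e1 : lamv c cp J v * rf c.length c d₁ = -(rf c.length cp d₁) := div_mul_cancel₀ _ s3.ne'
  have e2 : lamv c cp J w * rf c.length c d₂ = -(rf c.length cp d₂) := div_mul_cancel₀ _ t3.ne'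
  have e3 : rf c.length cp d₁ * rf c.length c d₂ = rf c.length cp d₂ * rf c.length c d₁ := by
    rw [← h0] at e2
    have a1 : rf c.length cp d₁ = -(lamv c cp J v * rf c.length c d₁) := by linarith
    have a2 : rf c.length cp d₂ = -(lamv c cp J v * rf c.length c d₂) := by linarith
    rw [a1, a2]; ring
  have e4 := generic (v₀ := v₀) hc hJ (dd_data hc hcp hJ hv hopt h)
    (dd_data hc hcp hJ hwv hopt' h') e3
  have e5 : rf c.length c d₂ • d₁ - rf c.length c d₁ • d₂ = 0 := by
    refine dir_zero hJ hv₀ ?_ fun q hq => ?_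
    · rw [map_sub, map_smul, map_smul, s2.1, t2.1, smul_zero, smul_zero, sub_zero]
    · have := e4 q hq
      rw [map_sub, map_smul, map_smul, smul_eq_mul, smul_eq_mul]
      change rf c.length q d₁ * rf c.length c d₂ = rf c.length q d₂ * rf c.length c d₁ at this
      linarith
  have e6 := congrArg (rf c.length r) e5
  rw [map_sub, map_smul, map_smul, smul_eq_mul, smul_eq_mul, map_zero] at e6
  have e7 := t2.2 r hr r1
  have e8 := mul_pos t3 r2
  have e9 := mul_nonpos_of_nonneg_of_nonpos s3.le e7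
  linarith

/-- one step of the machine -/
def sstep (c cp : List ℤ) (J : List (List ℤ)) (P : List (List ℤ)) : List (List ℤ) :=
  (shstep c cp J (hdp P)).elim P fun w => w :: P

/-- is the algorithm done? -/
def sdone (c cp : List ℤ) (J : List (List ℤ)) (P : List (List ℤ)) : Bool :=
  (shstep c cp J (hdp P)).isNone

/-- the path after `k` steps -/
def srun (c cp : List ℤ) (J : List (List ℤ)) (v : List ℤ) (k : ℕ) : List (List ℤ) :=
  (sstep c cp J)^[k] [v]

theorem srun_succ (c cp : List ℤ) (J : List (List ℤ)) (v : List ℤ) (k : ℕ) :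
    srun c cp J v (k + 1) = sstep c cp J (srun c cp J v k) := Function.iterate_succ_apply' _ _ _

theorem sstep_done {cp : List ℤ} {P : List (List ℤ)} (h : sdone c cp J P = true) :
    sstep c cp J P = P := by
  unfold sdone at h
  rw [Option.isNone_iff_eq_none] at h
  rw [sstep, h]
  rfl

theorem srun_done {cp : List ℤ} {k : ℕ} (h : sdone c cp J (srun c cp J v k) = true) (j : ℕ) :
    srun c cp J v (k + j) = srun c cp J v k := by
  induction j with
  | zero => rfl
  | succ j ih => rw [← add_assoc, srun_succ, ih, sstep_done h]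

/-- the invariant of the run -/
structure SInv (c : List ℤ) (J : List (List ℤ)) (v₀ : List ℤ) (k : ℕ) : Prop where
  good : Good c [] J (srun c (aux c J v₀) J v₀ k)
  vx : 0 < rf c.length (tau c) (lv c.length (hdp (srun c (aux c J v₀) J v₀ k))) →
    Vx c [] J (hdp (srun c (aux c J v₀) J v₀ k))

variable {cp : List ℤ}

/-- the vertices of the run -/
def sv (c : List ℤ) (J : List (List ℤ)) (v₀ : List ℤ) (k : ℕ) : List ℤ :=
  hdp (srun c (aux c J v₀) J v₀ k)

/-- the parameters of the run -/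
noncomputable def sl (c : List ℤ) (J : List (List ℤ)) (v₀ : List ℤ) : ℕ → ℝ
  | 0 => 0
  | k + 1 => lamv c (aux c J v₀) J (sv c J v₀ k)

theorem srun_good (hc : 0 < c.length) (hJ : Len c.length J) (hτJ : negV (tau c) ∈ J)
    (hv₀ : Vx c [] J v₀) (k : ℕ) :
    (∀ i < k, sdone c (aux c J v₀) J (srun c (aux c J v₀) J v₀ i) = false) →
    (∃ Q, srun c (aux c J v₀) J v₀ k = Q ++ [v₀] ∧ Q.length = k) ∧
    Good c [] J (srun c (aux c J v₀) J v₀ k) ∧
    (0 < rf c.length (tau c) (lv c.length (sv c J v₀ k)) →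
      Vx c [] J (sv c J v₀ k) ∧ DirOpt c (aux c J v₀) J (sv c J v₀ k) (sl c J v₀ k)) ∧
    ∀ i < k, Vx c [] J (sv c J v₀ i) ∧ DirOpt c (aux c J v₀) J (sv c J v₀ i) (sl c J v₀ i) ∧
      shstep c (aux c J v₀) J (sv c J v₀ i) = some (sv c J v₀ (i + 1)) := by
  have hcp := length_aux hJ v₀
  set cp := aux c J v₀ with hcpd
  induction k with
  | zero =>
    intro _
    exact ⟨⟨[], rfl, rfl⟩, hv₀, fun _ => ⟨hv₀, dirOpt_zero hJ hv₀⟩, fun i hi => absurd hi (by omega)⟩
  | succ k ih =>
    intro hnd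
    obtain ⟨⟨Q, q1, q2⟩, i2, i3, i4⟩ := ih fun i hi => hnd i (by omega)
    obtain ⟨w, P, hwP⟩ : ∃ w P, srun c cp J v₀ k = w :: P := by
      rw [q1]
      cases Q with
      | nil => exact ⟨v₀, [], rfl⟩
      | cons a Q => exact ⟨a, Q ++ [v₀], rfl⟩
    have hsv : sv c J v₀ k = w := by unfold sv; rw [← hcpd, hwP]; rfl
    have hn := hnd k (by omega)
    have hsome : ∃ u, shstep c cp J w = some u := by
      unfold sdone at hn
      rw [hwP] at hn
      cases h : shstep c cp J w with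
      | none =>
        change (shstep c cp J w).isNone = false at hn
        rw [h] at hn
        exact absurd hn (by simp)
      | some u => exact ⟨u, rfl⟩
    obtain ⟨u, hu⟩ := hsome
    have hgw : Good c [] J (w :: P) := by rw [← hwP]; exact i2
    have hlen := (Good.head hgw).1
    have hτw : 0 < rf c.length (tau c) (lv c.length w) := by
      rcases Good.head_or hτJ hgw with h | ⟨h, h'⟩
      · exact h
      · rw [shstep_ray hJ hlen hτJ h h'] at hu
        exact absurd hu (by simp)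
    rw [hsv] at i3
    obtain ⟨j1, j2⟩ := i3 hτw
    obtain ⟨s1, -, -, -, -, s6⟩ := shstep_some hc hcp hJ hτJ j1 j2 hu
    have hrun : srun c cp J v₀ (k + 1) = u :: w :: P := by
      rw [srun_succ, hwP, sstep]
      change (shstep c cp J w).elim _ _ = _
      rw [hu]
      rfl
    have hsv' : sv c J v₀ (k + 1) = u := by unfold sv; rw [← hcpd, hrun]; rfl
    refine ⟨⟨u :: Q, ?_, by simp [q2]⟩, ?_, fun hτ => ?_, fun i hi => ?_⟩
    · rw [hrun, ← hwP, q1]; rfl
    · rw [hrun]; exact ⟨s1, hgw⟩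
    · rw [hsv'] at hτ ⊢
      obtain ⟨a1, a2, -⟩ := s6 hτ
      refine ⟨a1, ?_⟩
      change DirOpt c cp J u (lamv c cp J (sv c J v₀ k))
      rw [hsv]
      exact a2
    · rcases Nat.lt_or_ge i k with h | h
      · exact i4 i h
      · have : i = k := by omega
        subst this
        rw [hsv, hsv']
        exact ⟨j1, j2, hu⟩

/-- if the algorithm is not done after `K` steps, then there are `K + 1` vertices on the shadow -/
theorem srun_long (hc : 0 < c.length) (hJ : Len c.length J) (hτJ : negV (tau c) ∈ J)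
    (hv₀ : Vx c [] J v₀) {K : ℕ}
    (hnd : ∀ i ≤ K, sdone c (aux c J v₀) J (srun c (aux c J v₀) J v₀ i) = false) :
    (∀ k ≤ K, Vx c [] J (sv c J v₀ k)) ∧ (∀ k ≤ K, sl c J v₀ k < sl c J v₀ (k + 1)) ∧
    (∀ k ≤ K, ∀ θ, sl c J v₀ k ≤ θ → θ ≤ sl c J v₀ (k + 1) →
      DirOpt c (aux c J v₀) J (sv c J v₀ k) θ) ∧
    ∀ k < K, Up (rf c.length (tau c)) (rf c.length c) (lv c.length (sv c J v₀ k))
      (lv c.length (sv c J v₀ (k + 1))) := by
  have hcp := length_aux hJ v₀
  obtain ⟨-, -, -, h4⟩ := srun_good hc hJ hτJ hv₀ (K + 1) fun i hi => hnd i (by omega)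
  refine ⟨fun k hk => (h4 k (by omega)).1, fun k hk => ?_, fun k hk θ h1 h2 => ?_,
    fun k hk => ?_⟩
  · cases k with
    | zero => exact lamv_pos hc hJ hτJ hv₀ (h4 0 (by omega)).2.2
    | succ k =>
      obtain ⟨a1, a2, a3⟩ := h4 k (by omega)
      obtain ⟨b1, b2, b3⟩ := h4 (k + 1) (by omega)
      exact lamv_lt hc hJ hτJ hv₀ a1 a2 a3 b1.pos b3
  · obtain ⟨a1, a2, a3⟩ := h4 k (by omega)
    obtain ⟨-, -, -, -, s5, -⟩ := shstep_some hc hcp hJ hτJ a1 a2 a3
    exact a2.between s5 h1 h2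
  · obtain ⟨a1, a2, a3⟩ := h4 k (by omega)
    exact (shstep_some hc hcp hJ hτJ a1 a2 a3).1.up

/-- when the algorithm is done, the last point is optimal -/
theorem sdone_top (hc : 0 < c.length) (hJ : Len c.length J)
    {P : List (List ℤ)} (hg : Good c [] J P) (h : sdone c cp J P = true) :
    Top c [] J (hdp P) := by
  cases P with
  | nil => exact hg.elim
  | cons w P =>
    unfold sdone at h
    rw [Option.isNone_iff_eq_none] at h
    exact shstep_none hJ (Good.head hg).1 h

end Pool.Agent.Y644.QV
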