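import Pool.Agent.Y644.PL.Count
import Pool.Agent.Y644.QV.Run
import Pool.Agent.Y644.QS.Seq
set_option autoImplicit false

/-!
# The number of pivots of the shadow vertex algorithm on nested structures
-/

namespace Pool.Agent.Y644.QV

open scoped InnerProductSpace
open Pool.Agent.Y644.QS Pool.Agent.Y644.QW Pool.Agent.H687R2.LLL Pool.Agent.NPC
open Pool.Agent.Y644.PL (ip PF)

variable {m n : ℕ} {A : Fin m → Fin n → ℚ} {b : Fin m → ℚ} {c v : Fin n → ℚ}

/-- the auxiliary objective -/
def auxx (x : Inp) : List ℤ := aux (crow x) (rowsJ x) (startV x)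

/-- the path of the shadow vertex algorithm after `k` steps -/
def runS (x : Inp) (k : ℕ) : List (List ℤ) :=
  srun (crow x) (auxx x) (rowsJ x) (startV x) k

/-- is the shadow vertex algorithm done after `k` steps? -/
def termS (x : Inp) (k : ℕ) : Bool := sdone (crow x) (auxx x) (rowsJ x) (runS x k)

theorem len_rowsJ : Len (crow (inp A b c v)).length (rowsJ (inp A b c v)) := by
  intro r hr
  rcases mem_jl.1 hr with rfl | hr
  · exact length_negV (length_tau _)
  · exact len_rowsI r hr

theorem pf_iff {x : Fin n → ℝ} :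
    PF (fun i j => (A i j : ℝ)) Finset.univ Finset.univ (fun i => (b i : ℝ)) x ↔
      x ∈ polyhedron A b :=
  ⟨fun h => ⟨fun i => h.le i (Finset.mem_univ _), h.nn⟩,
    fun h => ⟨h.2, fun j hj => absurd (Finset.mem_univ j) hj, fun i _ => h.1 i⟩⟩

theorem pos_getD {w : List ℤ} (h : 0 < rf (crow (inp A b c v)).length (tau (crow (inp A b c v)))
    (lv (crow (inp A b c v)).length w)) : 0 < w.getD n 0 := by
  rw [rf_tau_lv length_crow] at h
  exact_mod_cast h

theorem rf_ip (r : List ℤ) (x : Fin n → ℝ) :
    rf (crow (inp A b c v)).length r (eN length_crow (x, 1)) =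
      ip (fun j : Fin n => (r.getD j 0 : ℝ)) x + (r.getD n 0 : ℝ) := by
  rw [rf_eN, mul_one]
  rfl

/-- **The shadow vertex algorithm needs polynomially many pivots.** -/
theorem termS_nested (hv : re v ∈ Set.extremePoints ℝ (polyhedron A b)) {D : ℕ}
    (hN : PL.Nested D (fun i j => (A i j : ℝ)) Finset.univ Finset.univ) :
    ∃ k ≤ ((m + n + 2) ^ PL.KK D 2 + 2) ^ 2, termS (inp A b c v) k = true := by
  by_contra hcon
  push Not at hcon
  set K := ((m + n + 2) ^ PL.KK D 2 + 2) ^ 2 with hK
  set x := inp A b c v with hx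
  set C := crow x with hC
  have hc : 0 < C.length := by rw [hC, hx, length_crow]; omega
  obtain ⟨h1, h2, h3, h4⟩ := srun_long (K := K) hc (len_rowsJ (A := A) (b := b) (c := c) (v := v))
    (tau_mem_jl _ _) (start_vx (c := c) hv) fun i hi => by
      have := hcon i hi
      exact Bool.eq_false_iff.2 this
  have hcount := PL.count hN (b := fun i => (b i : ℝ))
    (c' := fun j : Fin n => ((auxx x).getD j 0 : ℝ)) (c := fun j : Fin n => (C.getD j 0 : ℝ))
    (K := K) (v := fun k => re (xq n (sv C (rowsJ x) (startV x) k)))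
    (lam := sl C (rowsJ x) (startV x)) h2
    (fun k hk => pf_iff.2 (vertex_of_ext (h1 k hk).ext (pos_getD (h1 k hk).pos)).1)
    (fun k hk θ t1 t2 y hy => by
      have o := opt_of_dir (f := fl C (auxx x) θ) (h1 k hk) (fun d hd => h3 k hk θ t1 t2 d hd)
        (x := eN length_crow (y, 1)) fun r hr _ => (jl_nonpos_iff y 1).2
          ⟨zero_le_one, fun i => by rw [mul_one]; exact (pf_iff.1 hy).1 i, (pf_iff.1 hy).2⟩ r hr
      have hp := pos_getD (h1 k hk).pos
      have hp' : (0 : ℝ) < (sv C (rowsJ x) (startV x) k).getD n 0 := by exact_mod_cast hp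
      have e1 : lv C.length (sv C (rowsJ x) (startV x) k) = _ := lv_xq length_crow hp
      rw [e1, map_smul, map_smul, smul_eq_mul, smul_eq_mul] at o
      have e2 : rf C.length (tau C) (eN length_crow (re (xq n (sv C (rowsJ x) (startV x) k)), 1))
        = 1 := rf_tau _ _ _
      have e3 : rf C.length (tau C) (eN length_crow (y, 1)) = 1 := rf_tau _ _ _
      rw [e2, e3, mul_one, mul_one, fl_apply, fl_apply, rf_ip, rf_ip, rf_ip, rf_ip] at o
      rw [mul_comm] at o
      have o' := le_of_mul_le_mul_left o hp'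
      linarith)
    (fun k hk => by
      have hp := pos_getD (h1 k hk.le).pos
      have hq := pos_getD (h1 (k + 1) hk).pos
      have hp' : (0 : ℝ) < (sv C (rowsJ x) (startV x) k).getD n 0 := by exact_mod_cast hp
      have hq' : (0 : ℝ) < (sv C (rowsJ x) (startV x) (k + 1)).getD n 0 := by exact_mod_cast hq
      have up := h4 k hk
      have e1 : lv C.length (sv C (rowsJ x) (startV x) k) = _ := lv_xq length_crow hp
      have e2 : lv C.length (sv C (rowsJ x) (startV x) (k + 1)) = _ := lv_xq length_crow hq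
      unfold Up at up
      rw [e1, e2, map_smul, map_smul, map_smul, map_smul, smul_eq_mul, smul_eq_mul, smul_eq_mul,
        smul_eq_mul] at up
      have e3 : ∀ j, rf C.length (tau C) (eN length_crow
        (re (xq n (sv C (rowsJ x) (startV x) j)), 1)) = 1 := fun j => rf_tau _ _ _
      rw [e3, e3, mul_one, mul_one, rf_ip, rf_ip] at up
      set a := ip (fun j : Fin n => (C.getD j 0 : ℝ)) (re (xq n (sv C (rowsJ x) (startV x) k)))
      set a' := ip (fun j : Fin n => (C.getD j 0 : ℝ))
        (re (xq n (sv C (rowsJ x) (startV x) (k + 1))))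
      have h5 := mul_pos hp' hq'
      have h6 : (((sv C (rowsJ x) (startV x) k).getD n 0 : ℝ) *
          ((sv C (rowsJ x) (startV x) (k + 1)).getD n 0 : ℝ)) * (a + (C.getD n 0 : ℝ)) <
          (((sv C (rowsJ x) (startV x) k).getD n 0 : ℝ) *
          ((sv C (rowsJ x) (startV x) (k + 1)).getD n 0 : ℝ)) * (a' + (C.getD n 0 : ℝ)) := by
        linarith
      have h7 := lt_of_mul_lt_mul_left h6 h5.le
      change a < a'
      linarith)
  rw [Fintype.card_fin, Fintype.card_fin] at hcount
  omega

end Pool.Agent.Y644.QV
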