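import Pool.Agent.Y644.QV.Bound
import Pool.Agent.Y644.QW.Final
set_option autoImplicit false

/-!
# The shadow vertex algorithm in parallel with the second algorithm
-/

namespace Pool.Agent.Y644.QV

open Finset Pool.Agent.Y644.QS Pool.Agent.Y644.QW Pool.Agent.H687R2.LLL Pool.Agent.NPC
open Pool.Agent.NPC.H532.RP

/-- has one of the algorithms finished at time `k`? -/
def done (x : Inp) (L k : ℕ) : Bool :=
  termS x k || (List.range (L + 1)).any fun g => term (runW x g k)

/-- the first time at which one of the algorithms has finished -/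
def firstU (x : Inp) (L K : ℕ) : ℕ :=
  ((List.range (K + 1)).filter fun k => done x L k).head?.getD 0

/-- the path computed at time `k` -/
def outU (x : Inp) (L k : ℕ) : List (List ℤ) :=
  if termS x k = true then runS x k else outP (runW x (firstG x L k) k)

/-- the output of the first algorithm which finishes -/
def lpU (x : Inp) (L K : ℕ) : Outp := lpOut x.2.2.1.length (outU x L (firstU x L K))

/-- the algorithm on bit strings -/
def lpBitsU (x : List Bool) (K : ℕ) : Outp :=
  (unbits Inp x).elim ([], none) fun y => lpU y x.length K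

theorem done_iff {x : Inp} {L k : ℕ} : done x L k = true ↔
    termS x k = true ∨ ∃ g ≤ L, term (runW x g k) = true := by
  unfold done
  rw [Bool.or_eq_true, List.any_eq_true]
  refine or_congr Iff.rfl (exists_congr fun g => and_congr_left fun _ => ?_)
  rw [List.mem_range]
  omega

variable {m n : ℕ} {A : Fin m → Fin n → ℚ} {b : Fin m → ℚ} {c v : Fin n → ℚ}

/-- The algorithm is correct. -/
theorem lpU_spec (hv : re v ∈ Set.extremePoints ℝ (polyhedron A b)) (L : ℕ) :
    ∃ (N : ℕ) (x : ℕ → Fin n → ℚ) (d : Option (Fin n → ℚ)),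
      (∀ K, (∃ k ≤ K, done (inp A b c v) L k = true) →
        lpU (inp A b c v) L K =
          ((List.range (N + 1)).map (fun k => List.ofFn (x k)), d.map List.ofFn) ∧ N ≤ K) ∧
      IsSimplexPath (polyhedron A b) c v N x d := by
  classical
  set X := inp A b c v with hX
  have hex : ∃ k, done X L k = true := by
    obtain ⟨Q, j, -, h2, -⟩ := run_lp_general (cc := c) hv 0
    exact ⟨j, done_iff.2 (Or.inr ⟨0, Nat.zero_le _, term_iff.2 ⟨_, h2⟩⟩)⟩
  obtain ⟨k, hk, hmin⟩ : ∃ k, done X L k = true ∧ ∀ i < k, done X L i = false := by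
    refine ⟨Nat.find hex, Nat.find_spec hex, fun i hi => ?_⟩
    have := Nat.find_min hex hi
    rwa [← Bool.not_eq_true]
  have hcond : ∀ K, (∃ i ≤ K, done X L i = true) → k ≤ K := by
    rintro K ⟨i, hi, h7⟩
    by_contra hcon
    have := hmin i (by omega)
    rw [h7] at this
    exact absurd this (by simp)
  have hfirst : ∀ K, k ≤ K → firstU X L K = k := fun K hK =>
    head_range (P := fun k => done X L k) hk hmin hK
  -- the computed path
  obtain ⟨Q, q1, q2, q3, q4⟩ : ∃ Q, outU X L k = Q ++ [startV X] ∧
      Good (crow X) [] (rowsJ X) (outU X L k) ∧ Top (crow X) [] (rowsJ X) (hdp (outU X L k)) ∧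
      Q.length ≤ k := by
    by_cases hS : termS X k = true
    · have hc : 0 < (crow X).length := by rw [hX, length_crow]; omega
      have hS0 : ∀ i < k, sdone (crow X) (aux (crow X) (rowsJ X) (startV X)) (rowsJ X)
          (srun (crow X) (aux (crow X) (rowsJ X) (startV X)) (rowsJ X) (startV X) i) = false := by
        intro i hi
        have h1 := hmin i hi
        rw [← Bool.not_eq_true] at h1 ⊢
        exact fun h => h1 (done_iff.2 (Or.inl h))
      obtain ⟨⟨Q, q1, q2⟩, q3, -⟩ := srun_good hc (len_rowsJ (A := A) (b := b) (c := c) (v := v))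
        (tau_mem_jl _ _) (start_vx (c := c) hv) k hS0
      have h1 : outU X L k = runS X k := if_pos hS
      rw [h1]
      exact ⟨Q, q1, q3, sdone_top hc (len_rowsJ (A := A) (b := b) (c := c) (v := v)) q3 hS,
        q2.le⟩
    · have hW : ∃ g ≤ L, term (runW X g k) = true := by
        rcases done_iff.1 hk with h | h
        · exact absurd h hS
        · exact h
      obtain ⟨g, hg, hgmin⟩ : ∃ g, (g ≤ L ∧ term (runW X g k) = true) ∧
          ∀ i < g, term (runW X i k) = false := by
        refine ⟨Nat.find hW, Nat.find_spec hW, fun i hi => ?_⟩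
        have h1 := Nat.find_min hW hi
        have h2 := (Nat.find_spec hW).1
        rw [← Bool.not_eq_true]
        exact fun h => h1 ⟨by omega, h⟩
      have hfg : firstG X L k = g :=
        head_range (P := fun g => term (runW X g k)) hg.2 hgmin hg.1
      obtain ⟨Q, j, -, h2, h3, h4⟩ := run_lp_general (cc := c) hv g
      have hstate : runW X g k = retW (Q ++ [startV X]) [] := by
        obtain ⟨p, hp⟩ := term_iff.1 hg.2
        have e1 : runW X g (k + j) = retW p [] := by
          unfold runW at hp ⊢
          rw [add_comm, Function.iterate_add_apply, hp, wstep_fixed]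
        have e2 : runW X g (k + j) = retW (Q ++ [startV X]) [] := by
          unfold runW
          rw [Function.iterate_add_apply, h2, wstep_fixed]
        rw [hp, ← e1, e2]
      have h1 : outU X L k = Q ++ [startV X] := by
        unfold outU
        rw [if_neg hS, hfg, hstate]
        rfl
      rw [h1]
      refine ⟨Q, rfl, good_dd h3, h4.of_relax fun r hr => jl_dd.1 hr, ?_⟩
      have := length_path hstate
      rw [List.length_append, List.length_singleton] at this
      omega
  obtain ⟨N, x, d, g1, g2, g3⟩ := lpOut_spec q1 q2 q3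
  refine ⟨N, x, d, fun K hK => ⟨?_, ?_⟩, g2⟩
  · unfold lpU
    rw [hfirst K (hcond K hK)]
    have h6 : X.2.2.1.length = n := by simp [hX, QS.inp]
    rw [h6]
    exact g1
  · have := hcond K hK
    omega

theorem lpBitsU_inp (K : ℕ) : lpBitsU (bits (inp A b c v)) K =
    lpU (inp A b c v) (sz (inp A b c v)) K := by
  unfold lpBitsU
  rw [unbits_bits, bits_length]
  rfl

theorem done_general (hv : re v ∈ Set.extremePoints ℝ (polyhedron A b)) {L K : ℕ}
    (h : bnd n (m + n) ≤ K) : ∃ k ≤ K, done (inp A b c v) L k = true := by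
  obtain ⟨g, h1, k, h2, h3⟩ := term_general (c := c) hv (L := L) h
  exact ⟨k, h2, done_iff.2 (Or.inr ⟨g, h1, h3⟩)⟩

/-- the first algorithm which has finished with block structures -/
theorem done_blocks (hv : re v ∈ Set.extremePoints ℝ (polyhedron A b)) {D C L : ℕ}
    (hL : m + n < L) {X : Finset (Fin n)} {R : Finset (Fin m)} (hn : QW.Nested A D X R)
    (h : (m - R.card) + (n - X.card) ≤ C * Nat.log 2 L ∨
      (X = Finset.univ ∧ Nat.log 2 (m - R.card) ^ 2 ≤ C * Nat.log 2 L)) :
    ∃ k ≤ Kst D C L, done (inp A b c v) L k = true := by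
  obtain ⟨g, h1, k, h2, h3⟩ := term_nested (c := c) hv hL hn h
  exact ⟨k, h2, done_iff.2 (Or.inr ⟨g, h1, h3⟩)⟩

/-- nested structures with matrices of rank one -/
theorem done_ranks (hv : re v ∈ Set.extremePoints ℝ (polyhedron A b)) {D L : ℕ}
    (hN : PL.Nested D (fun i j => (A i j : ℝ)) Finset.univ Finset.univ) :
    ∃ k ≤ ((m + n + 2) ^ PL.KK D 2 + 2) ^ 2, done (inp A b c v) L k = true := by
  obtain ⟨k, h1, h2⟩ := termS_nested (c := c) hv hN
  exact ⟨k, h1, done_iff.2 (Or.inl h2)⟩

end Pool.Agent.Y644.QV
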