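import Pool.Agent.Y644.QW.Opt
import Pool.Agent.Y644.QS.Cone
set_option autoImplicit false

/-!
# The shadow vertex pivot: the direction

For a vertex `v` we consider the directions `d` in the tangent cone (`τ d = 0`, `r d ≤ 0` for the
rows `r` tight at `v`) with `c d > 0` and maximise the ratio of the auxiliary objective `cp d` and
`c d`. This is a linear program if the last coordinate is replaced by `c d`.
-/

namespace Pool.Agent.Y644.QV

open scoped InnerProductSpace
open Pool.Agent.Y644.QS Pool.Agent.Y644.QW Pool.Agent.H687R2.LLL Pool.Agent.NPC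

/-- the row without its last coordinate -/
def low (c r : List ℤ) : List ℤ := comb 1 r (dot r (tau c)) (tau c)

/-- the equation `c d = t` -/
def cE (c : List ℤ) : List ℤ := comb 1 (low c c) 1 (tau c)

/-- the inequalities for the directions -/
def TJ (c : List ℤ) (J : List (List ℤ)) (v : List ℤ) : List (List ℤ) :=
  jl c ((tight J v).map (low c))

/-- the optimal direction, with last coordinate `c d` -/
def pdir (c cp : List ℤ) (J : List (List ℤ)) (v : List ℤ) : List ℤ :=
  optw (low c cp) [cE c] (TJ c J v)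

/-- the shadow vertex pivot -/
def shstep (c cp : List ℤ) (J : List (List ℤ)) (v : List ℤ) : Option (List ℤ) :=
  if feas c [] (tight J v) (gain c v) = true then
    some (normV c [] J (other J v (low c (pdir c cp J v))))
  else none

/-! ### `optw` without an integer vertex -/

section OptReal

variable {c : List ℤ} {E J : List (List ℤ)}

theorem feas_topT' (hc : 0 < c.length) (hE : Len c.length E) (hJ : Len c.length J)
    (hτJ : negV (tau c) ∈ J) {u : EuclideanSpace ℝ (Fin c.length)}
    (hu : Ext (rf c.length) E J u) (hp : 0 < rf c.length (tau c) u) :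
    feas c E J (topT c E J) = true := by
  have hanti : ∀ s s', s ≤ s' → feas c E J (thr c (kpar c E J) s') = true →
      feas c E J (thr c (kpar c E J) s) = true := by
    intro s s' hs h
    rw [feas_iff hE hJ (length_thr _ _ _)] at h ⊢
    obtain ⟨h, hh, hp⟩ := h
    refine ⟨h, hh, hp.trans_le ?_⟩
    rw [rf_thr, rf_thr]
    have h1 := tau_nonneg hτJ hh
    have h2 : (s : ℝ) ≤ s' := by exact_mod_cast hs
    nlinarith
  obtain ⟨b1, -, -, -⟩ := binary_search (A := fun s => feas c E J (thr c (kpar c E J) s)) hanti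
    (2 * kpar c E J + 1) 0 _ (tsearch_eq c E J (kpar c E J))
  unfold topT
  rcases b1 with b1 | b1
  · exact b1
  · rw [b1, feas_iff hE hJ (length_thr _ _ _)]
    exact ⟨_, hu.mem, thr_zero hc hE hJ hu hp⟩

theorem optw_real (hc : 0 < c.length) (hE : Len c.length E) (hJ : Len c.length J)
    (hτJ : negV (tau c) ∈ J) {v : EuclideanSpace ℝ (Fin c.length)}
    (hv : Ext (rf c.length) E J v) (hp : 0 < rf c.length (tau c) v) :
    (optw c E J).length = c.length ∧ Ext (rf c.length) E J (lv c.length (optw c E J)) ∧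
      Top c E J (optw c E J) ∧ (0 < rf c.length (tau c) (lv c.length (optw c E J)) ∨
        (rf c.length (tau c) (lv c.length (optw c E J)) = 0 ∧
          0 < rf c.length c (lv c.length (optw c E J)))) := by
  have hf := feas_topT' hc hE hJ hτJ hv hp
  have hgl : (topT c E J).length = c.length := length_thr _ _ _
  obtain ⟨h1, h2, h3, h4, h5⟩ := greedy_spec hE hJ J (fun r hr => hr) hf _ rfl
  change Len c.length (greedy c E J (topT c E J)) at h1
  unfold optw
  set g := topT c E J with hg
  set G := greedy c E J g with hG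
  obtain ⟨f1, f2, -⟩ := face_spec h1 hJ hgl
  have f3 := feas_pos h1 hJ hgl h4
  set x := face c G J g with hx
  obtain ⟨u, u0, u1⟩ := exists_ext (φ := rf c.length) (E := G) (J := J)
    (g := rf c.length g) (fun y y1 y2 => by
      obtain ⟨s, hs⟩ := hv.ker y (fun r hr => y1 r (h2 r hr)) fun r hr _ => y2 r hr
      have h1 := y2 _ hτJ
      rw [rf_negV, hs, map_smul, smul_eq_mul, neg_eq_zero] at h1
      rcases mul_eq_zero.1 h1 with h2 | h2
      · rw [hs, h2, zero_smul]
      · exact absurd h2 hp.ne') f2 f3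
  have hut : ∀ r ∈ J, rf c.length r u = 0 → r ∈ G := by
    intro r hr h0
    rcases h5 r hr with h | ⟨E', e1, e2, e3⟩
    · exact h
    · exfalso
      rw [feas_iff (e1.cons (hJ r hr)) hJ hgl] at e3
      refine e3 ⟨u, ⟨fun e he => ?_, u0.mem.2⟩, u1⟩
      rcases List.mem_cons.1 he with rfl | he
      · exact h0
      · exact u0.mem.1 e (e2 e he)
  obtain ⟨s, hs⟩ := u0.ker (lv c.length x) f2.1 fun r hr h0 => f2.1 r (hut r hr h0)
  have hs0 : 0 < s := by
    rw [hs, map_smul, smul_eq_mul] at f3
    exact (mul_pos_iff_of_pos_right u1).1 f3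
  have hxG : Ext (rf c.length) G J (lv c.length x) := by
    rw [hs]; exact u0.smul hs0
  have hxE : Ext (rf c.length) E J (lv c.length x) := by
    refine ⟨⟨fun r hr => f2.1 r (h2 r hr), f2.2⟩, hxG.ne, fun h a1 a2 => ?_⟩
    refine hxG.ker h (fun r hr => ?_) a2
    rcases h3 r hr with h | h
    · exact a1 r h
    · exact a2 r h (f2.1 r hr)
  have hor : 0 < rf c.length (tau c) (lv c.length x) ∨
      (rf c.length (tau c) (lv c.length x) = 0 ∧ 0 < rf c.length c (lv c.length x)) := by
    rcases (tau_nonneg hτJ hxE.mem).lt_or_eq with h | h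
    · exact Or.inl h
    · right
      refine ⟨h.symm, ?_⟩
      rw [hg, topT, rf_thr, ← h, mul_zero, sub_zero] at f3
      exact (mul_pos_iff_of_pos_left (by positivity)).1 f3
  refine ⟨f1, hxE, ?_, hor⟩
  rcases hor with h | ⟨h, h'⟩
  · obtain ⟨t1, t2⟩ := tsearch_spec hE hJ hτJ (kpar c E J)
    obtain ⟨g1, g2⟩ := gap_spec hc hE hJ hτJ t1 rfl f1 hxE.mem f3 (by
      rw [rf_gain f1]; exact le_of_eq (by ring)) hxE h
    rw [top_iff f1]
    rintro ⟨y, hy, hpos⟩
    obtain ⟨u, u1, u2⟩ := g2 E (fun r hr => hr) (fun u hu => hu) y hy hpos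
    have := t2 _ g1 ((feas_iff hE hJ (length_thr _ _ _)).2 ⟨u, u1, u2⟩)
    omega
  · exact top_ray hτJ h h'

theorem tau_congr {c c' : List ℤ} (h : c'.length = c.length) : tau c' = tau c := by
  unfold tau; rw [h]

/-- the specification of `optw`, with the length as a parameter -/
theorem optw_N {N : ℕ} (hN : c.length = N) (h0 : 0 < N) (hE : Len N E) (hJ : Len N J)
    (hτJ : negV (tau c) ∈ J) {v : EuclideanSpace ℝ (Fin N)}
    (hv : Ext (rf N) E J v) (hp : 0 < rf N (tau c) v) :
    (optw c E J).length = N ∧ Ext (rf N) E J (lv N (optw c E J)) ∧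
      (∀ h, InC (rf N) E J h → rf N c h * rf N (tau c) (lv N (optw c E J)) ≤
        rf N c (lv N (optw c E J)) * rf N (tau c) h) ∧
      (0 < rf N (tau c) (lv N (optw c E J)) ∨
        (rf N (tau c) (lv N (optw c E J)) = 0 ∧ 0 < rf N c (lv N (optw c E J)))) := by
  subst hN
  exact optw_real h0 hE hJ hτJ hv hp

theorem val_bound_N {N : ℕ} (hN : c.length = N) (h0 : 0 < N) (hE : Len N E) (hJ : Len N J)
    {w : EuclideanSpace ℝ (Fin N)} (hext : Ext (rf N) E J w) (hτ : 0 < rf N (tau c) w) :
    ∃ p q : ℤ, 0 < q ∧ (q : ℝ) ≤ 2 ^ bpar c E J ∧ |(p : ℝ)| ≤ 2 ^ bpar c E J ∧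
      rf N c w * q = p * rf N (tau c) w := by
  subst hN
  exact val_bound h0 hE hJ hext hτ

end OptReal

/-! ### Rows without last coordinate -/

section Low

variable {c : List ℤ} {N : ℕ}

theorem length_low {r : List ℤ} (hr : r.length = c.length) : (low c r).length = c.length :=
  length_comb hr (length_tau c) _ _

theorem length_cE (c : List ℤ) : (cE c).length = c.length :=
  length_comb (length_low rfl) (length_tau c) _ _

/-- the last unit vector -/
noncomputable def eT (c : List ℤ) : EuclideanSpace ℝ (Fin c.length) := lv c.length (tau c)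

theorem tau_eT (hc : 0 < c.length) : rf c.length (tau c) (eT c) = 1 := by
  rw [rf_apply, eT, real_inner_self_eq_norm_sq, norm_tau hc, one_pow]

/-- the point with last coordinate `0` -/
noncomputable def dd (c : List ℤ) (y : EuclideanSpace ℝ (Fin c.length)) :
    EuclideanSpace ℝ (Fin c.length) := y - (rf c.length (tau c) y) • eT c

theorem tau_dd (hc : 0 < c.length) (y : EuclideanSpace ℝ (Fin c.length)) :
    rf c.length (tau c) (dd c y) = 0 := by
  rw [dd, map_sub, map_smul, tau_eT hc, smul_eq_mul, mul_one, sub_self]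

theorem dd_add (hc : 0 < c.length) {d : EuclideanSpace ℝ (Fin c.length)}
    (hd : rf c.length (tau c) d = 0) (a : ℝ) : dd c (d + a • eT c) = d := by
  rw [dd, map_add, map_smul, hd, tau_eT hc, zero_add, smul_eq_mul, mul_one]
  abel

theorem rf_low {r : List ℤ} (hr : r.length = c.length) (y : EuclideanSpace ℝ (Fin c.length)) :
    rf c.length (low c r) y = rf c.length r (dd c y) := by
  rw [low, rf_comb hr (length_tau c), dd, map_sub, map_smul, eT, rf_dot hr (length_tau c),
    smul_eq_mul]
  push_cast
  ring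

theorem rf_cE (c : List ℤ) (y : EuclideanSpace ℝ (Fin c.length)) :
    rf c.length (cE c) y = rf c.length c (dd c y) - rf c.length (tau c) y := by
  rw [cE, rf_comb (length_low rfl) (length_tau c), rf_low rfl]
  push_cast
  ring

theorem lv_low {x : List ℤ} (hx : x.length = c.length) :
    lv c.length (low c x) = dd c (lv c.length x) := by
  rw [low, lv_comb hx (length_tau c), dd, eT]
  have : ((dot x (tau c) : ℤ) : ℝ) = rf c.length (tau c) (lv c.length x) := by
    rw [rf_apply, real_inner_comm, ← rf_apply, rf_dot hx (length_tau c)]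
  rw [this]
  push_cast
  rw [one_smul]

end Low

/-! ### The direction -/

variable {c cp : List ℤ} {J : List (List ℤ)} {v : List ℤ}

/-- the directions in the tangent cone -/
def Dir (c : List ℤ) (J : List (List ℤ)) (v : List ℤ) (d : EuclideanSpace ℝ (Fin c.length)) :
    Prop := rf c.length (tau c) d = 0 ∧
      ∀ r ∈ J, rf c.length r (lv c.length v) = 0 → rf c.length r d ≤ 0

/-- `v` is optimal for `cp + lam c` -/
def DirOpt (c cp : List ℤ) (J : List (List ℤ)) (v : List ℤ) (lam : ℝ) : Prop :=
  ∀ d, Dir c J v d → rf c.length cp d + lam * rf c.length c d ≤ 0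

theorem len_TJ (hJ : Len c.length J) : Len c.length (TJ c J v) := by
  refine Len.jl fun r hr => ?_
  obtain ⟨r', hr', rfl⟩ := List.mem_map.1 hr
  exact length_low (hJ r' (List.mem_filter.1 hr').1)

theorem inC_iff_dir (hJ : Len c.length J) (hv : v.length = c.length)
    (y : EuclideanSpace ℝ (Fin c.length)) (hc : 0 < c.length) :
    InC (rf c.length) [cE c] (TJ c J v) y ↔
      rf c.length c (dd c y) = rf c.length (tau c) y ∧ 0 ≤ rf c.length (tau c) y ∧
        Dir c J v (dd c y) := by
  constructor
  · rintro ⟨h1, h2⟩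
    have a1 := h1 _ (by simp : cE c ∈ [cE c])
    rw [rf_cE] at a1
    have a2 := h2 _ (tau_mem_jl _ _)
    rw [rf_negV] at a2
    refine ⟨by linarith, by linarith, tau_dd hc y, fun r hr h0 => ?_⟩
    have a3 := h2 (low c r) (mem_jl.2 (Or.inr (List.mem_map.2
      ⟨r, (mem_tight hJ hv).2 ⟨hr, h0⟩, rfl⟩)))
    rwa [rf_low (hJ r hr)] at a3
  · rintro ⟨h1, h2, -, h3⟩
    refine ⟨fun r hr => ?_, fun r hr => ?_⟩
    · rw [List.mem_singleton] at hr
      subst hr
      rw [rf_cE, h1, sub_self]
    · rcases mem_jl.1 hr with rfl | hr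
      · rw [rf_negV]; linarith
      · obtain ⟨r', hr', rfl⟩ := List.mem_map.1 hr
        obtain ⟨b1, b2⟩ := (mem_tight hJ hv).1 hr'
        rw [rf_low (hJ r' b1)]
        exact h3 r' b1 b2

theorem dir_of (hv : 0 < rf c.length (tau c) (lv c.length v))
    {h : EuclideanSpace ℝ (Fin c.length)}
    (hh : ∀ r ∈ J, rf c.length r (lv c.length v) = 0 → rf c.length r h ≤ 0) :
    Dir c J v (rf c.length (tau c) (lv c.length v) • h - rf c.length (tau c) h • lv c.length v) := by
  refine ⟨by simp only [map_sub, map_smul, smul_eq_mul]; ring, fun r hr h0 => ?_⟩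
  simp only [map_sub, map_smul, smul_eq_mul, h0, mul_zero, sub_zero]
  exact mul_nonpos_of_nonneg_of_nonpos hv.le (hh r hr h0)

theorem gain_dir (hv : v.length = c.length) (h : EuclideanSpace ℝ (Fin c.length)) :
    rf c.length c (rf c.length (tau c) (lv c.length v) • h -
      rf c.length (tau c) h • lv c.length v) = rf c.length (gain c v) h := by
  rw [rf_gain hv]
  simp only [map_sub, map_smul, smul_eq_mul]
  ring

/-- **The direction of the shadow vertex pivot.** -/
theorem pdir_spec (hc : 0 < c.length) (hcp : cp.length = c.length) (hJ : Len c.length J)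
    (hv : Vx c [] J v) {lam : ℝ} (hopt : DirOpt c cp J v lam)
    (hf : feas c [] (tight J v) (gain c v) = true) :
    (pdir c cp J v).length = c.length ∧
      Ext (rf c.length) [cE c] (TJ c J v) (lv c.length (pdir c cp J v)) ∧
      0 < rf c.length (tau c) (lv c.length (pdir c cp J v)) ∧
      rf c.length c (dd c (lv c.length (pdir c cp J v))) =
        rf c.length (tau c) (lv c.length (pdir c cp J v)) ∧
      Dir c J v (dd c (lv c.length (pdir c cp J v))) ∧
      ∀ d, Dir c J v d → 0 ≤ rf c.length c d →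
        rf c.length cp d * rf c.length c (dd c (lv c.length (pdir c cp J v))) ≤
          rf c.length cp (dd c (lv c.length (pdir c cp J v))) * rf c.length c d := by
  have hE0 : Len c.length ([] : List (List ℤ)) := fun r hr => by simp at hr
  have htau : tau (low c cp) = tau c := tau_congr (length_low hcp)
  have hTJ := len_TJ (v := v) hJ
  have hcE : Len c.length [cE c] := fun r hr => by
    rw [List.mem_singleton] at hr; rw [hr]; exact length_cE c
  -- an improving direction
  obtain ⟨h, h1, h2⟩ := (feas_iff hE0 (hJ.tight v) (length_gain c v)).1 hf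
  set d₀ := rf c.length (tau c) (lv c.length v) • h - rf c.length (tau c) h • lv c.length v
    with hd₀
  have d1 : Dir c J v d₀ := dir_of hv.pos fun r hr h0 => h1.2 r ((mem_tight hJ hv.len).2 ⟨hr, h0⟩)
  have d2 : 0 < rf c.length c d₀ := by rw [hd₀, gain_dir hv.len]; exact h2
  set y₀ := d₀ + (rf c.length c d₀) • eT c with hy₀
  have y1 : rf c.length (tau c) y₀ = rf c.length c d₀ := by
    rw [hy₀, map_add, map_smul, d1.1, tau_eT hc, smul_eq_mul]; ring
  have y2 : dd c y₀ = d₀ := dd_add hc d1.1 _
  have y3 : InC (rf c.length) [cE c] (TJ c J v) y₀ := by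
    rw [inC_iff_dir hJ hv.len _ hc, y1, y2]
    exact ⟨rfl, d2.le, d1⟩
  obtain ⟨u, u1, u2⟩ := exists_ext (φ := rf c.length) (E := [cE c]) (J := TJ c J v)
    (g := rf c.length (tau c)) (fun y a1 a2 => by
      have b1 := a2 _ (tau_mem_jl c _)
      rw [rf_negV, neg_eq_zero] at b1
      have b2 : dd c y = y := by rw [dd, b1, zero_smul, sub_zero]
      obtain ⟨s, hs⟩ := hv.ext.ker y (by simp) fun r hr h0 => by
        have := a2 (low c r) (mem_jl.2 (Or.inr (List.mem_map.2
          ⟨r, (mem_tight hJ hv.len).2 ⟨hr, h0⟩, rfl⟩)))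
        rwa [rf_low (hJ r hr), b2] at this
      rw [hs, map_smul, smul_eq_mul] at b1
      rcases mul_eq_zero.1 b1 with h3 | h3
      · rw [hs, h3, zero_smul]
      · exact absurd h3 hv.pos.ne') y3 (by rw [y1]; exact d2)
  obtain ⟨o1, o2, o3, o4⟩ := optw_N (length_low hcp) hc hcE hTJ
    (by rw [htau]; exact tau_mem_jl _ _) u1 (by rw [htau]; exact u2)
  rw [htau] at o3 o4
  change (pdir c cp J v).length = c.length at o1
  change Ext (rf c.length) [cE c] (TJ c J v) (lv c.length (pdir c cp J v)) at o2
  obtain ⟨i1, i2, i3⟩ := (inC_iff_dir hJ hv.len _ hc).1 o2.mem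
  have hpos : 0 < rf c.length (tau c) (lv c.length (pdir c cp J v)) := by
    rcases o4 with o4 | ⟨o4, o5⟩
    · exact o4
    · exfalso
      change rf c.length (tau c) (lv c.length (pdir c cp J v)) = 0 at o4
      change 0 < rf c.length (low c cp) (lv c.length (pdir c cp J v)) at o5
      rw [rf_low hcp] at o5
      have := hopt _ i3
      rw [i1, o4, mul_zero, add_zero] at this
      linarith
  refine ⟨o1, o2, hpos, i1, i3, fun d e1 e2 => ?_⟩
  have k := o3 (d + (rf c.length c d) • eT c) (by
    rw [inC_iff_dir hJ hv.len _ hc, dd_add hc e1.1]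
    refine ⟨?_, ?_, e1⟩
    · rw [map_add, map_smul, e1.1, tau_eT hc, smul_eq_mul]; ring
    · rw [map_add, map_smul, e1.1, tau_eT hc, smul_eq_mul]; linarith)
  change _ * rf c.length (tau c) (lv c.length (pdir c cp J v)) ≤
    rf c.length (low c cp) (lv c.length (pdir c cp J v)) * _ at k
  rw [rf_low hcp, rf_low hcp, dd_add hc e1.1, map_add, map_smul, e1.1, tau_eT hc, smul_eq_mul,
    mul_one, zero_add] at k
  rw [i1]
  exact k

end Pool.Agent.Y644.QV
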