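import Pool.Agent.Y644.QV.Step
import Pool.Agent.Y644.QS.PolyStep
set_option autoImplicit false

/-!
# The auxiliary objective function is generic
-/

namespace Pool.Agent.Y644.QV

open scoped InnerProductSpace
open Pool.Agent.Y644.QS Pool.Agent.Y644.QW Pool.Agent.H687R2.LLL Pool.Agent.NPC

/-- the number with the digits `l` in base `M` -/
def hs (M : ℝ) (l : List ℝ) : ℝ := l.foldr (fun a s => a + M * s) 0

theorem hs_cons (M a : ℝ) (l : List ℝ) : hs M (a :: l) = a + M * hs M l := rfl

theorem hs_zero {B M : ℝ} (hB : 1 ≤ B) (hM : 4 * B ^ 3 ≤ M) (l : List ℝ)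
    (h : ∀ x ∈ l, |x| ≤ 2 * B ∧ (x ≠ 0 → 1 ≤ B ^ 2 * |x|)) :
    (hs M l = 0 → ∀ x ∈ l, x = 0) ∧ (hs M l ≠ 0 → 1 ≤ B ^ 2 * |hs M l|) := by
  induction l with
  | nil => exact ⟨fun _ => by simp, fun h0 => absurd rfl h0⟩
  | cons a l ih =>
    obtain ⟨i1, i2⟩ := ih fun x hx => h x (by simp [hx])
    obtain ⟨a1, a2⟩ := h a (by simp)
    rw [hs_cons]
    by_cases hz : hs M l = 0
    · rw [hz, mul_zero, add_zero]
      refine ⟨fun h0 x hx => ?_, a2⟩
      rcases List.mem_cons.1 hx with rfl | hx
      · exact h0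
      · exact i1 hz x hx
    · have h1 := i2 hz
      have hM0 : 0 < M := lt_of_lt_of_le (by positivity) hM
      have h2 : M * |hs M l| ≤ |a + M * hs M l| + |a| := by
        have : |M * hs M l| ≤ |a + M * hs M l| + |a| := by
          have h3 := abs_sub (a + M * hs M l) a
          rwa [add_sub_cancel_left] at h3
        rwa [abs_mul, abs_of_pos hM0] at this
      have h3 : 4 * B ≤ M * |hs M l| := by
        have h4 : 4 * B ^ 3 * |hs M l| ≤ M * |hs M l| :=
          mul_le_mul_of_nonneg_right hM (abs_nonneg _)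
        have h5 : 4 * B * 1 ≤ 4 * B * (B ^ 2 * |hs M l|) :=
          mul_le_mul_of_nonneg_left h1 (by positivity)
        nlinarith
      have h6 : 2 * B ≤ |a + M * hs M l| := by linarith
      refine ⟨fun h0 => ?_, fun _ => ?_⟩
      · rw [h0, abs_zero] at h6
        linarith
      · have h7 : 1 ≤ B ^ 2 := one_le_pow₀ hB
        nlinarith

theorem hs_nonpos {M : ℝ} (hM : 0 < M) (l : List ℝ) (h : ∀ x ∈ l, x ≤ 0) :
    hs M l ≤ 0 ∧ (hs M l = 0 → ∀ x ∈ l, x = 0) := by
  induction l with
  | nil => exact ⟨le_rfl, fun _ => by simp⟩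
  | cons a l ih =>
    obtain ⟨i1, i2⟩ := ih fun x hx => h x (by simp [hx])
    have ha := h a (by simp)
    rw [hs_cons]
    have h1 : M * hs M l ≤ 0 := mul_nonpos_of_nonneg_of_nonpos hM.le i1
    refine ⟨by linarith, fun h0 x hx => ?_⟩
    have h2 : a = 0 := by linarith
    have h3 : M * hs M l = 0 := by linarith
    rcases List.mem_cons.1 hx with rfl | hx
    · exact h2
    · exact i2 ((mul_eq_zero.1 h3).resolve_left hM.ne') x hx

theorem hs_lin {α : Type} (M a b : ℝ) (f g : α → ℝ) (l : List α) :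
    hs M (l.map fun r => a * f r - b * g r) = a * hs M (l.map f) - b * hs M (l.map g) := by
  induction l with
  | nil => simp [hs]
  | cons r l ih =>
    rw [List.map_cons, List.map_cons, List.map_cons, hs_cons, hs_cons, hs_cons, ih]
    ring

/-- a bound for the numbers describing the directions -/
def bst (c : List ℤ) (J : List (List ℤ)) : ℕ :=
  2 * (sz (J.map (low c)) + (sz [cE c] + sz (jl c (J.map (low c))) + 2)) * (J.length + 4)

/-- the base -/
def base (c : List ℤ) (J : List (List ℤ)) : ℤ := 2 ^ (3 * bst c J + 2)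

/-- the auxiliary objective function -/
def aux (c : List ℤ) (J : List (List ℤ)) (v : List ℤ) : List ℤ :=
  (tight J v).foldr (fun r acc => comb 1 r (-base c J) acc) (comb 0 (tau c) 0 (tau c))

variable {c : List ℤ} {J : List (List ℤ)} {v v₀ : List ℤ}

theorem aux_foldr (hJ : ∀ r ∈ J, r.length = c.length) (M : ℤ) :
    (J.foldr (fun r acc => comb 1 r (-M) acc) (comb 0 (tau c) 0 (tau c))).length = c.length ∧
      ∀ d, rf c.length (J.foldr (fun r acc => comb 1 r (-M) acc) (comb 0 (tau c) 0 (tau c))) d =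
        hs M (J.map fun r => rf c.length r d) := by
  induction J with
  | nil =>
    refine ⟨length_comb (length_tau c) (length_tau c) _ _, fun d => ?_⟩
    rw [List.foldr_nil, rf_comb (length_tau c) (length_tau c)]
    simp [hs]
  | cons r J ih =>
    obtain ⟨i1, i2⟩ := ih fun r hr => hJ r (by simp [hr])
    have hr : r.length = c.length := hJ r (by simp)
    refine ⟨length_comb hr i1 _ _, fun d => ?_⟩
    rw [List.foldr_cons, rf_comb hr i1, i2, List.map_cons, hs_cons]
    push_cast
    ring

theorem length_aux (hJ : Len c.length J) (v : List ℤ) : (aux c J v).length = c.length :=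
  (aux_foldr (hJ.tight v) _).1

theorem rf_aux (hJ : Len c.length J) (v : List ℤ) (d : EuclideanSpace ℝ (Fin c.length)) :
    rf c.length (aux c J v) d = hs (base c J) ((tight J v).map fun r => rf c.length r d) :=
  (aux_foldr (hJ.tight v) _).2 d

theorem sz_map_filter {β γ : Type} [TEnc γ] (f : β → γ) (p : β → Bool) (l : List β) :
    sz ((l.filter p).map f) ≤ sz (l.map f) := by
  induction l with
  | nil => simp
  | cons a l ih =>
    rw [List.filter_cons]
    split_ifs
    · simp only [List.map_cons, sz_list_cons]; omega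
    · simp only [List.map_cons, sz_list_cons]; omega

theorem bpar_le_bst {r : List ℤ} (hr : r ∈ J) (v : List ℤ) :
    bpar (low c r) [cE c] (TJ c J v) ≤ bst c J := by
  unfold bpar bst
  have h1 : sz (low c r) < sz (J.map (low c)) := sz_le_of_mem (List.mem_map_of_mem hr)
  have h2 : sz (TJ c J v) ≤ sz (jl c (J.map (low c))) := by
    unfold TJ jl tight
    rw [sz_list_cons, sz_list_cons]
    have := sz_map_filter (low c) (fun r => decide (dot r v = 0)) J
    omega
  have h3 : (TJ c J v).length ≤ J.length + 1 := by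
    unfold TJ jl tight
    rw [List.length_cons, List.length_map]
    have := List.length_filter_le (fun r => decide (dot r v = 0)) J
    omega
  refine Nat.mul_le_mul (Nat.mul_le_mul_left _ ?_) ?_
  · rw [sz_pair, sz_pair]; omega
  · rw [List.length_singleton]; omega

/-- the data of a direction -/
structure DD (c : List ℤ) (J : List (List ℤ)) (v x : List ℤ) : Prop where
  len : x.length = c.length
  ext : Ext (rf c.length) [cE c] (TJ c J v) (lv c.length x)
  pos : 0 < rf c.length (tau c) (lv c.length x)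
  eq : rf c.length c (dd c (lv c.length x)) = rf c.length (tau c) (lv c.length x)

theorem ratio (hc : 0 < c.length) (hJ : Len c.length J) {x : List ℤ} (h : DD c J v x)
    {r : List ℤ} (hr : r ∈ J) : ∃ p q : ℤ, 0 < q ∧ (q : ℝ) ≤ 2 ^ bst c J ∧
      |(p : ℝ)| ≤ 2 ^ bst c J ∧
      rf c.length r (dd c (lv c.length x)) * q = p * rf c.length c (dd c (lv c.length x)) := by
  have hlen := length_low (hJ r hr)
  have htau : tau (low c r) = tau c := tau_congr hlen
  obtain ⟨p, q, h1, h2, h3, h4⟩ := val_bound_N hlen hc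
    (fun r hr => by rw [List.mem_singleton] at hr; rw [hr]; exact length_cE c)
    (len_TJ hJ) h.ext (by rw [htau]; exact h.pos)
  have hb : (2 : ℝ) ^ bpar (low c r) [cE c] (TJ c J v) ≤ 2 ^ bst c J :=
    pow_le_pow_right₀ (by norm_num) (bpar_le_bst hr v)
  refine ⟨p, q, h1, h2.trans hb, h3.trans hb, ?_⟩
  rw [htau, rf_low (hJ r hr)] at h4
  rw [h4, h.eq]

/-- **The auxiliary objective function is generic.** -/
theorem generic (hc : 0 < c.length) (hJ : Len c.length J) {v₁ v₂ x₁ x₂ : List ℤ}
    (h₁ : DD c J v₁ x₁) (h₂ : DD c J v₂ x₂)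
    (h : rf c.length (aux c J v₀) (dd c (lv c.length x₁)) *
        rf c.length c (dd c (lv c.length x₂)) =
      rf c.length (aux c J v₀) (dd c (lv c.length x₂)) *
        rf c.length c (dd c (lv c.length x₁))) :
    ∀ r ∈ tight J v₀, rf c.length r (dd c (lv c.length x₁)) *
        rf c.length c (dd c (lv c.length x₂)) =
      rf c.length r (dd c (lv c.length x₂)) *
        rf c.length c (dd c (lv c.length x₁)) := by
  set d₁ := dd c (lv c.length x₁) with hd₁
  set d₂ := dd c (lv c.length x₂) with hd₂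
  set g₁ := rf c.length c d₁ with hg₁
  set g₂ := rf c.length c d₂ with hg₂
  have p₁ : 0 < g₁ := by rw [hg₁, hd₁, h₁.eq]; exact h₁.pos
  have p₂ : 0 < g₂ := by rw [hg₂, hd₂, h₂.eq]; exact h₂.pos
  set B : ℝ := 2 ^ bst c J with hB
  have hB1 : 1 ≤ B := one_le_pow₀ (by norm_num)
  have hM : 4 * B ^ 3 ≤ ((base c J : ℤ) : ℝ) := by
    rw [base, hB]
    push_cast
    rw [← pow_mul, mul_comm (bst c J) 3, pow_add]
    norm_num
    linarith
  have key := (hs_zero hB1 hM ((tight J v₀).map fun r => (1 / g₁) * rf c.length r d₁ -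
    (1 / g₂) * rf c.length r d₂) (fun y hy => ?_)).1 (by
      rw [hs_lin, ← rf_aux hJ, ← rf_aux hJ]
      field_simp
      linarith)
  · intro r hr
    have h1 := key _ (List.mem_map_of_mem hr)
    field_simp at h1
    linarith
  · obtain ⟨r, hr, rfl⟩ := List.mem_map.1 hy
    have hrJ := (List.mem_filter.1 hr).1
    obtain ⟨a, q, a1, a2, a3, a4⟩ := ratio hc hJ h₁ hrJ
    obtain ⟨a', q', b1, b2, b3, b4⟩ := ratio hc hJ h₂ hrJ
    have q0 : (1 : ℝ) ≤ q := by exact_mod_cast a1
    have q0' : (1 : ℝ) ≤ q' := by exact_mod_cast b1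
    have e1 : (1 / g₁) * rf c.length r d₁ = a / q := by
      rw [eq_div_iff (by positivity)]
      field_simp
      linarith
    have e2 : (1 / g₂) * rf c.length r d₂ = a' / q' := by
      rw [eq_div_iff (by positivity)]
      field_simp
      linarith
    simp only [e1, e2]
    have c1 : |(a : ℝ) / q| ≤ B := by
      rw [abs_div, abs_of_pos (by linarith : (0 : ℝ) < q)]
      exact (div_le_self (abs_nonneg _) q0).trans a3
    have c2 : |(a' : ℝ) / q'| ≤ B := by
      rw [abs_div, abs_of_pos (by linarith : (0 : ℝ) < q')]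
      exact (div_le_self (abs_nonneg _) q0').trans b3
    refine ⟨(abs_sub _ _).trans (by linarith), fun hne => ?_⟩
    have e3 : (a : ℝ) / q - a' / q' = ((a * q' - a' * q : ℤ) : ℝ) / (q * q') := by
      push_cast
      field_simp
    rw [e3] at hne ⊢
    have e4 : a * q' - a' * q ≠ 0 := fun h0 => hne (by rw [h0]; simp)
    have e5 : (1 : ℝ) ≤ |((a * q' - a' * q : ℤ) : ℝ)| := by
      rw [← Int.cast_abs]
      exact_mod_cast Int.one_le_abs e4
    have e6 : (0 : ℝ) < q * q' := by positivity
    rw [abs_div, abs_of_pos e6, ← mul_div_assoc, le_div_iff₀ e6, one_mul]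
    have e7 : (q : ℝ) * q' ≤ B * B := mul_le_mul a2 b2 (by linarith) (by linarith)
    nlinarith

end Pool.Agent.Y644.QV
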