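import Pool.Agent.Y644.QV.PolyV
import Pool.Agent.Y644.QV.Comb
set_option autoImplicit false

/-!
# Polynomial time: the combined algorithm
-/

namespace Pool.Agent.NPC.Y644

open Pool.Agent.Y644.QS Pool.Agent.Y644.QW Pool.Agent.Y644.QV Pool.Agent.H687R2.LLL
open Pool.Agent.NPC.H532.RP

variable {α : Type} [TEnc α]

theorem poly_sstep {c cp : α → List ℤ} {J P : α → List (List ℤ)} (hc : Poly c) (hcp : Poly cp)
    (hJ : Poly J) (hP : Poly P) : Poly (fun a => sstep (c a) (cp a) (J a) (P a)) := by
  unfold sstep
  have h1 : Poly (fun a => shstep (c a) (cp a) (J a) (hdp (P a))) := by fun_prop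
  exact Poly.optElim (h := fun a w => w :: P a) h1 hP (by fun_prop)

theorem poly_sdone {c cp : α → List ℤ} {J P : α → List (List ℤ)} (hc : Poly c) (hcp : Poly cp)
    (hJ : Poly J) (hP : Poly P) : Poly (fun a => sdone (c a) (cp a) (J a) (P a)) := by
  have h1 : Poly (fun a => shstep (c a) (cp a) (J a) (hdp (P a))) := by fun_prop
  refine (Poly.optElim (g := fun _ => true) (h := fun a w => false) h1 (Poly.const _)
    (Poly.const _)).congr fun a => ?_
  unfold sdone
  cases shstep (c a) (cp a) (J a) (hdp (P a)) <;> rfl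

attribute [fun_prop] poly_sstep poly_sdone

/-- the size of the path -/
theorem srun_sz {p : Polynomial ℕ} (hp : ∀ (c : List ℤ) (E J : List (List ℤ)) (w : List ℤ),
    sz (normV c E J w) ≤ p.eval (sz c + sz E + sz J)) (c cp : List ℤ) (J : List (List ℤ))
    (v : List ℤ) (k : ℕ) : sz (srun c cp J v k) ≤
      sz [v] + k * (p.eval (sz c + sz ([] : List (List ℤ)) + sz J) + 1) := by
  induction k with
  | zero => rw [zero_mul, add_zero]; exact le_rfl
  | succ k ih =>
    rw [srun_succ]
    unfold sstep
    set B := p.eval (sz c + sz ([] : List (List ℤ)) + sz J) with hB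
    have e : (k + 1) * (B + 1) = k * (B + 1) + (B + 1) := Nat.succ_mul _ _
    cases h : shstep c cp J (hdp (srun c cp J v k)) with
    | none =>
      rw [Option.elim_none]
      omega
    | some w =>
      rw [Option.elim_some, sz_list_cons]
      have h1 : sz w ≤ B := by
        unfold shstep at h
        split_ifs at h
        rw [Option.some.injEq] at h
        rw [← h]
        exact hp _ _ _ _
      omega

theorem poly_srun {c cp v : α → List ℤ} {J : α → List (List ℤ)} {k : α → ℕ} (hc : Poly c)
    (hcp : Poly cp) (hJ : Poly J) (hv : Poly v) (hk : UPoly k) :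
    Poly (fun a => srun (c a) (cp a) (J a) (v a) (k a)) := by
  unfold srun
  obtain ⟨p, hp⟩ := normV_bound
  have hs : Poly (fun a => [v a]) := Poly.cons hv (Poly.const _)
  obtain ⟨q1, hq1⟩ := hc.sz_le
  obtain ⟨q2, hq2⟩ := hJ.sz_le
  obtain ⟨q3, hq3⟩ := hs.sz_le
  obtain ⟨w, hw⟩ := Poly.sz_le (show Poly (fun a => List.replicate (k a) ()) from hk)
  have hF : Poly (fun y : α × List (List ℤ) => sstep (c y.1) (cp y.1) (J y.1) y.2) := by
    fun_prop
  refine Poly.iterU (F := fun a P => sstep (c a) (cp a) (J a) P) hk hs hF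
    (q3 + w * (p.comp (q1 + Polynomial.C (sz ([] : List (List ℤ))) + q2) + 1)) ?_
  intro a i hi
  refine (srun_sz hp (c a) (cp a) (J a) (v a) i).trans ?_
  have h1 := hq1 a
  have h2 := hq2 a
  have h3 := hq3 a
  have h5 : k a ≤ w.eval (sz a) := by
    have := length_lt_sz (List.replicate (k a) ())
    rw [List.length_replicate] at this
    have := hw a
    omega
  have h6 : p.eval (sz (c a) + sz ([] : List (List ℤ)) + sz (J a)) ≤
      (p.comp (q1 + Polynomial.C (sz ([] : List (List ℤ))) + q2)).eval (sz a) := by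
    rw [Polynomial.eval_comp]
    refine eval_mono p ?_
    simp only [Polynomial.eval_add, Polynomial.eval_C]
    omega
  simp only [Polynomial.eval_add, Polynomial.eval_mul, Polynomial.eval_one]
  exact Nat.add_le_add h3 (Nat.mul_le_mul (hi.trans h5) (Nat.add_le_add_right h6 1))

theorem poly_rowsJ {x : α → Inp} (hx : Poly x) : Poly (fun a => rowsJ (x a)) :=
  poly_jl (poly_crow.comp hx) (poly_rowsI.comp hx)

theorem poly_auxx {x : α → Inp} (hx : Poly x) : Poly (fun a => auxx (x a)) :=
  poly_aux (poly_crow.comp hx) (poly_rowsJ hx) (poly_startV.comp hx)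

theorem poly_runS {x : α → Inp} {k : α → ℕ} (hx : Poly x) (hk : UPoly k) :
    Poly (fun a => runS (x a) (k a)) :=
  poly_srun (poly_crow.comp hx) (poly_auxx hx) (poly_rowsJ hx) (poly_startV.comp hx) hk

theorem poly_termS {x : α → Inp} {k : α → ℕ} (hx : Poly x) (hk : UPoly k) :
    Poly (fun a => termS (x a) (k a)) :=
  poly_sdone (poly_crow.comp hx) (poly_auxx hx) (poly_rowsJ hx) (poly_runS hx hk)

theorem poly_done {x : α → Inp} {L k : α → ℕ} (hx : Poly x) (hL : UPoly L) (hk : UPoly k) :
    Poly (fun a => done (x a) (L a) (k a)) := by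
  have h1 : Poly (fun p : α × ℕ => term (runW (x p.1) (min p.2 (L p.1)) (k p.1))) :=
    poly_term (poly_runW (by fun_prop) (uPoly_min (by fun_prop) (by fun_prop)) (by fun_prop))
  have h2 : Poly (fun a => (List.range (L a + 1)).any fun g =>
      term (runW (x a) (min g (L a)) (k a))) :=
    Poly.any (p := fun a g => term (runW (x a) (min g (L a)) (k a)))
      (UPoly.range (by fun_prop)) h1
  refine (Poly.or (poly_termS hx hk) h2).congr fun a => ?_
  unfold done
  congr 1
  rw [Bool.eq_iff_iff, List.any_eq_true, List.any_eq_true]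
  refine exists_congr fun g => and_congr_right fun hg => ?_
  rw [List.mem_range] at hg
  rw [min_eq_left (by omega)]

theorem poly_firstU {x : α → Inp} {L K : α → ℕ} (hx : Poly x) (hL : UPoly L) (hK : UPoly K) :
    Poly (fun a => firstU (x a) (L a) (K a)) := by
  have h2 : Poly (fun p : α × ℕ => done (x p.1) (L p.1) (min p.2 (K p.1))) :=
    poly_done (by fun_prop) (by fun_prop) (uPoly_min (by fun_prop) (by fun_prop))
  have h3 : Poly (fun a => (List.range (K a + 1)).filter fun k =>
      done (x a) (L a) (min k (K a))) :=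
    Poly.filter (p := fun a k => done (x a) (L a) (min k (K a))) (UPoly.range (by fun_prop)) h2
  have h4 := Poly.optGetD (Poly.head? h3) (Poly.const (0 : ℕ))
  refine h4.congr fun a => ?_
  unfold firstU
  congr 2
  refine List.filter_congr fun k hk => ?_
  rw [List.mem_range] at hk
  rw [min_eq_left (by omega)]

theorem firstU_le (x : Inp) (L K : ℕ) : firstU x L K ≤ K := by
  unfold firstU
  cases h : ((List.range (K + 1)).filter fun k => done x L k).head? with
  | none => exact Nat.zero_le _
  | some k =>
    have := List.mem_range.1 (List.mem_filter.1 (List.mem_of_head? h)).1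
    rw [Option.getD_some]
    omega

theorem poly_outU {x : α → Inp} {L k : α → ℕ} (hx : Poly x) (hL : UPoly L) (hk : UPoly k) :
    Poly (fun a => outU (x a) (L a) (k a)) := by
  unfold outU
  have h2 : UPoly (fun a => firstG (x a) (L a) (k a)) :=
    UPoly.of_le (poly_firstG hx hL hk) hL fun a => firstG_le _ _ _
  exact Poly.ite (Poly.decide_bool (poly_termS hx hk)) (poly_runS hx hk)
    (poly_outP (poly_runW hx h2 hk))

theorem poly_lpU {x : α → Inp} {L K : α → ℕ} (hx : Poly x) (hL : UPoly L) (hK : UPoly K) :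
    Poly (fun a => lpU (x a) (L a) (K a)) := by
  unfold lpU
  have h1 : UPoly (fun a => firstU (x a) (L a) (K a)) :=
    UPoly.of_le (poly_firstU hx hL hK) hK fun a => firstU_le _ _ _
  exact poly_lpOut (by fun_prop) (poly_outU hx hL h1)

theorem poly_lpBitsU {x : α → List Bool} {K : α → ℕ} (hx : Poly x) (hK : UPoly K) :
    Poly (fun a => lpBitsU (x a) (K a)) := by
  unfold lpBitsU
  have h1 : Poly (fun a => unbits Inp (x a)) := poly_unbits.comp hx
  have h2 : Poly (fun p : α × Inp => lpU p.2 (x p.1).length (K p.1)) :=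
    poly_lpU (Poly.snd Poly.id) (by fun_prop) (by fun_prop)
  exact Poly.optElim (h := fun a y => lpU y (x a).length (K a)) h1 (Poly.const _) h2

/-- the algorithm runs in quasi-polynomial time -/
theorem quasi_lpU : QuasiPolyTime (fun x =>
    bits (lpBitsU x ((16 * x.length + 16) ^ sz (16 * x.length + 16)))) := by
  have h1 : UPoly (fun x : List Bool => 16 * x.length + 16) := by fun_prop
  have h2 : Poly (fun p : List Bool × List Unit => lpBitsU p.1 p.2.length) :=
    poly_lpBitsU (by fun_prop) (by fun_prop)
  have h3 := quasi_main h1 h2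
  simpa only [List.length_replicate] using h3

theorem poly_lpUK (D C : ℕ) : PolyTime (fun x => bits (lpBitsU x (Kst D C x.length))) := by
  refine polyTime_bits (poly_lpBitsU Poly.id ?_)
  unfold Kst b0
  have h1 : UPoly (fun x : List Bool => (x.length + 1) ^ (kA D * C + 4 * C + 2)) :=
    UPoly_pow (by fun_prop) _
  have h2 : UPoly (fun x : List Bool =>
      (x.length + (cst (D + 1)).1) ^ (cst (D + 1)).1) :=
    UPoly_pow (by fun_prop) _
  fun_prop

theorem poly_lpUR (k : ℕ) : PolyTime (fun x => bits (lpBitsU x (((x.length + 2) ^ k + 2) ^ 2))) := by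
  refine polyTime_bits (poly_lpBitsU Poly.id ?_)
  have h1 : UPoly (fun x : List Bool => (x.length + 2) ^ k) :=
    UPoly_pow (by fun_prop) _
  have h2 : UPoly (fun x : List Bool => (x.length + 2) ^ k + 2) := by fun_prop
  exact UPoly_pow h2 _

end Pool.Agent.NPC.Y644
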