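import Pool.Agent.Y644.QV.Bound
import Pool.Agent.Y644.QW.Final
set_option autoImplicit false

/-!
# Polynomial time: the shadow vertex algorithm
-/

namespace Pool.Agent.NPC.Y644

open Pool.Agent.Y644.QS Pool.Agent.Y644.QW Pool.Agent.Y644.QV Pool.Agent.H687R2.LLL
open Pool.Agent.NPC.H532.RP

variable {α : Type} [TEnc α]

theorem poly_low {c r : α → List ℤ} (hc : Poly c) (hr : Poly r) :
    Poly (fun a => low (c a) (r a)) := by
  unfold low
  fun_prop

attribute [fun_prop] poly_low

theorem poly_cE {c : α → List ℤ} (hc : Poly c) : Poly (fun a => cE (c a)) := by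
  unfold cE
  fun_prop

attribute [fun_prop] poly_cE

theorem poly_TJ {c v : α → List ℤ} {J : α → List (List ℤ)} (hc : Poly c) (hJ : Poly J)
    (hv : Poly v) : Poly (fun a => TJ (c a) (J a) (v a)) := by
  unfold TJ
  have h1 : Poly (fun a => (tight (J a) (v a)).map (low (c a))) :=
    Poly.map (F := fun a r => low (c a) r) (by fun_prop) (by fun_prop)
  exact poly_jl hc h1

attribute [fun_prop] poly_TJ

theorem poly_pdir {c cp v : α → List ℤ} {J : α → List (List ℤ)} (hc : Poly c) (hcp : Poly cp)
    (hJ : Poly J) (hv : Poly v) : Poly (fun a => pdir (c a) (cp a) (J a) (v a)) := by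
  unfold pdir
  have h1 : Poly (fun a => [cE (c a)]) := Poly.cons (poly_cE hc) (Poly.const _)
  exact poly_optw (by fun_prop) h1 (by fun_prop)

attribute [fun_prop] poly_pdir

theorem poly_shstep {c cp v : α → List ℤ} {J : α → List (List ℤ)} (hc : Poly c) (hcp : Poly cp)
    (hJ : Poly J) (hv : Poly v) : Poly (fun a => shstep (c a) (cp a) (J a) (v a)) := by
  unfold shstep
  have h0 : Poly (fun _ : α => ([] : List (List ℤ))) := Poly.const _
  have h1 : Poly (fun a => low (c a) (pdir (c a) (cp a) (J a) (v a))) := by fun_prop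
  have h2 : Poly (fun a => normV (c a) [] (J a) (other (J a) (v a) (low (c a)
      (pdir (c a) (cp a) (J a) (v a))))) := poly_normV hc h0 hJ (poly_other hJ hv h1)
  have h3 : Poly (fun a => feas (c a) [] (tight (J a) (v a)) (gain (c a) (v a))) :=
    poly_feas hc h0 (by fun_prop) (by fun_prop)
  exact Poly.ite (Poly.decide_bool h3) (Poly.some h2) (Poly.const none)

attribute [fun_prop] poly_shstep

theorem upoly_bst {c : α → List ℤ} {J : α → List (List ℤ)} (hc : Poly c) (hJ : Poly J) :
    UPoly (fun a => bst (c a) (J a)) := by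
  unfold bst
  have h1 : Poly (fun a => (J a).map (low (c a))) :=
    Poly.map (F := fun a r => low (c a) r) hJ (by fun_prop)
  have h2 : Poly (fun a => [cE (c a)]) := Poly.cons (poly_cE hc) (Poly.const _)
  have h3 : Poly (fun a => jl (c a) ((J a).map (low (c a)))) := poly_jl hc h1
  fun_prop

theorem sz_auxf (c : List ℤ) (B : ℕ) (L : List (List ℤ)) :
    nrm (L.foldr (fun r acc => comb 1 r (-(2 ^ B)) acc) (comb 0 (tau c) 0 (tau c))) <
      2 ^ (sz L + L.length * B) ∧
    (L.foldr (fun r acc => comb 1 r (-(2 ^ B)) acc) (comb 0 (tau c) 0 (tau c))).length ≤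
      c.length := by
  induction L with
  | nil =>
    refine ⟨lt_of_le_of_lt (nrm_comb _ _ _ _) (by simp), ?_⟩
    rw [List.foldr_nil, length_comb (length_tau c) (length_tau c)]
  | cons r L ih =>
    obtain ⟨h1, h2⟩ := ih
    rw [List.foldr_cons]
    set acc := L.foldr (fun r acc => comb 1 r (-(2 ^ B)) acc) (comb 0 (tau c) 0 (tau c))
    refine ⟨lt_of_le_of_lt (nrm_comb _ _ _ _) ?_, ?_⟩
    · have h3 := nrm_lt r
      have h4 : (-(2 ^ B : ℤ)).natAbs = 2 ^ B := by
        rw [Int.natAbs_neg, Int.natAbs_pow]; rfl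
      rw [h4, Int.natAbs_one, one_mul]
      have h5 : 2 ^ B * nrm acc < 2 ^ (B + (sz L + L.length * B)) := by
        rw [pow_add]
        exact Nat.mul_lt_mul_of_pos_left h1 (by positivity)
      have h6 : 2 ^ sz r ≤ 2 ^ (sz r + (B + (sz L + L.length * B))) :=
        Nat.pow_le_pow_right (by norm_num) (by omega)
      have h7 : 2 ^ (B + (sz L + L.length * B)) ≤ 2 ^ (sz r + (B + (sz L + L.length * B))) :=
        Nat.pow_le_pow_right (by norm_num) (by omega)
      have h8 : 2 ^ (sz (r :: L) + (r :: L).length * B) =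
          2 ^ (sz r + (B + (sz L + L.length * B))) * 2 := by
        rw [← pow_succ]
        congr 1
        rw [sz_list_cons, List.length_cons]
        ring
      rw [h8]
      omega
    · refine le_trans ?_ h2
      simp [comb]

theorem poly_auxf {c : α → List ℤ} {T : α → List (List ℤ)} {B : α → ℕ} (hc : Poly c)
    (hT : Poly T) (hb : UPoly B) : Poly (fun a => (T a).foldr
      (fun r acc => comb 1 r (-(2 ^ B a)) acc) (comb 0 (tau (c a)) 0 (tau (c a)))) := by
  have hB : Poly (fun a => (2 : ℤ) ^ B a) := Poly.ipow (Poly.const 2) hb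
  obtain ⟨q1, hq1⟩ := hc.sz_le
  obtain ⟨q2, hq2⟩ := hT.sz_le
  obtain ⟨w, hw⟩ := Poly.sz_le (show Poly (fun a => List.replicate (B a) ()) from hb)
  have hF : Poly (fun p : α × List ℤ × List ℤ => comb 1 p.2.1 (-(2 ^ B p.1)) p.2.2) := by
    have h1 : Poly (fun p : α × List ℤ × List ℤ => (2 : ℤ) ^ B p.1) :=
      Poly.comp (g := fun a => (2 : ℤ) ^ B a) (f := fun p : α × List ℤ × List ℤ => p.1) hB
        (by fun_prop)
    exact Poly.comb (Poly.const 1) (by fun_prop) (Poly.ineg h1) (by fun_prop)
  refine Poly.foldr (l := T)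
    (s := fun a => comb 0 (tau (c a)) 0 (tau (c a)))
    (F := fun a r acc => comb 1 r (-(2 ^ B a)) acc) hT (by fun_prop) hF
    (q1 * (4 * (q2 + q2 * w) + 6) + 1) ?_
  intro a k hk
  obtain ⟨h1, h2⟩ := sz_auxf (c a) (B a) ((T a).drop k)
  refine (sz_of_nrm h1).trans ?_
  have e1 := Poly.sz_drop_le (T a) k
  have e2 := hq2 a
  have e3 := hq1 a
  have e4 := length_lt_sz (c a)
  have e5 := length_lt_sz (T a)
  have e6 : ((T a).drop k).length ≤ (T a).length := by simp
  have e7 : B a ≤ w.eval (sz a) := by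
    have := length_lt_sz (List.replicate (B a) ())
    rw [List.length_replicate] at this
    have := hw a
    omega
  simp only [Polynomial.eval_add, Polynomial.eval_mul, Polynomial.eval_one,
    Polynomial.eval_ofNat]
  have e8 : ((T a).drop k).length * B a ≤ q2.eval (sz a) * w.eval (sz a) :=
    Nat.mul_le_mul (by omega) e7
  refine Nat.add_le_add_right (Nat.mul_le_mul (by omega) ?_) 1
  omega

theorem poly_aux {c v : α → List ℤ} {J : α → List (List ℤ)} (hc : Poly c) (hJ : Poly J)
    (hv : Poly v) : Poly (fun a => aux (c a) (J a) (v a)) := by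
  have hT : Poly (fun a => tight (J a) (v a)) := by fun_prop
  have hb : UPoly (fun a => 3 * bst (c a) (J a) + 2) :=
    UPoly.add (UPoly.mul (UPoly.const 3) (upoly_bst hc hJ)) (UPoly.const 2)
  exact poly_auxf (B := fun a => 3 * bst (c a) (J a) + 2) hc hT hb

attribute [fun_prop] poly_aux

end Pool.Agent.NPC.Y644
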