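import Pool.Agent.Y644.QV.Dir
set_option autoImplicit false

/-!
# The shadow vertex pivot: the step
-/

namespace Pool.Agent.Y644.QV

open scoped InnerProductSpace
open Pool.Agent.Y644.QS Pool.Agent.Y644.QW Pool.Agent.H687R2.LLL Pool.Agent.NPC

variable {c cp : List ℤ} {J : List (List ℤ)} {v w : List ℤ}

/-- optimality on the cone implies that no direction improves -/
theorem dir_le {f : EuclideanSpace ℝ (Fin c.length) →ₗ[ℝ] ℝ} (hv : Vx c [] J v)
    (h : ∀ x, InC (rf c.length) [] J x →
      f x * rf c.length (tau c) (lv c.length v) ≤ f (lv c.length v) * rf c.length (tau c) x)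
    {d : EuclideanSpace ℝ (Fin c.length)} (hd : Dir c J v d) : f d ≤ 0 := by
  obtain ⟨ε, e0, e1⟩ := exists_eps (J := J) (a := fun r => max (rf c.length r d) 0)
    (b := fun r => rf c.length r (lv c.length v)) fun r hr => by
      rcases (hv.ext.mem.2 r hr).lt_or_eq with h3 | h3
      · exact Or.inl h3
      · exact Or.inr ⟨h3.le, max_eq_right (hd.2 r hr h3)⟩
  have hmem : InC (rf c.length) [] J (lv c.length v + ε • d) := by
    refine ⟨by simp, fun r hr => ?_⟩
    have h1 := e1 r hr
    rw [abs_of_nonneg (le_max_right _ _)] at h1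
    rw [map_add, map_smul, smul_eq_mul]
    have h2 : ε * rf c.length r d ≤ ε * max (rf c.length r d) 0 :=
      mul_le_mul_of_nonneg_left (le_max_left _ _) e0.le
    linarith
  have h1 := h _ hmem
  rw [map_add, map_smul, map_add, map_smul, hd.1, smul_zero, add_zero, smul_eq_mul] at h1
  have h2 : f d * (ε * rf c.length (tau c) (lv c.length v)) ≤ 0 := by nlinarith
  have h3 := mul_pos e0 hv.pos
  by_contra hcon
  push Not at hcon
  have := mul_pos hcon h3
  linarith

/-- the converse -/
theorem opt_of_dir {f : EuclideanSpace ℝ (Fin c.length) →ₗ[ℝ] ℝ} (hv : Vx c [] J v)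
    (h : ∀ d, Dir c J v d → f d ≤ 0) {x : EuclideanSpace ℝ (Fin c.length)}
    (hx : ∀ r ∈ J, rf c.length r (lv c.length v) = 0 → rf c.length r x ≤ 0) :
    f x * rf c.length (tau c) (lv c.length v) ≤ f (lv c.length v) * rf c.length (tau c) x := by
  have h1 := h _ (dir_of hv.pos hx)
  simp only [map_sub, map_smul, smul_eq_mul] at h1
  linarith

/-- the functional `cp + lam c` -/
noncomputable def fl (c cp : List ℤ) (lam : ℝ) : EuclideanSpace ℝ (Fin c.length) →ₗ[ℝ] ℝ :=
  rf c.length cp + lam • rf c.length c

theorem fl_apply (lam : ℝ) (x : EuclideanSpace ℝ (Fin c.length)) :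
    fl c cp lam x = rf c.length cp x + lam * rf c.length c x := rfl

theorem DirOpt.between {lam lam' μ : ℝ} (h : DirOpt c cp J v lam) (h' : DirOpt c cp J v lam')
    (h1 : lam ≤ μ) (h2 : μ ≤ lam') : DirOpt c cp J v μ := by
  intro d hd
  have a1 := h d hd
  have a2 := h' d hd
  rcases le_total 0 (rf c.length c d) with h3 | h3
  · have := mul_le_mul_of_nonneg_right h2 h3
    linarith
  · have := mul_le_mul_of_nonpos_right h1 h3
    linarith

theorem DirOpt.top {lam μ : ℝ} (hv : Vx c [] J v) (h : DirOpt c cp J v lam)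
    (ht : Top c [] J v) (h1 : lam ≤ μ) : DirOpt c cp J v μ := by
  intro d hd
  have a1 := h d hd
  have a2 : rf c.length c d ≤ 0 := dir_le (f := rf c.length c) hv (fun x hx => ht x hx) hd
  have := mul_le_mul_of_nonpos_right h1 a2
  linarith

theorem shstep_none (hJ : Len c.length J) (hv : v.length = c.length)
    (h : shstep c cp J v = none) : Top c [] J v := by
  unfold shstep at h
  split_ifs at h with hf
  have hE0 : Len c.length ([] : List (List ℤ)) := fun r hr => by simp at hr
  rw [feas_iff hE0 (hJ.tight _) (length_gain c v)] at hf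
  rw [top_iff hv]
  rintro ⟨x, hx, hp⟩
  exact hf ⟨x, ⟨hx.1, fun r hr => hx.2 r (List.mem_filter.1 hr).1⟩, hp⟩

theorem shstep_ray (hJ : Len c.length J) (hv : v.length = c.length)
    (hτJ : negV (tau c) ∈ J) (h0 : rf c.length (tau c) (lv c.length v) = 0)
    (hc : 0 < rf c.length c (lv c.length v)) : shstep c cp J v = none := by
  have hE0 : Len c.length ([] : List (List ℤ)) := fun r hr => by simp at hr
  unfold shstep
  rw [if_neg]
  rw [feas_iff hE0 (hJ.tight _) (length_gain c v)]
  rintro ⟨x, hx, hp⟩
  rw [rf_gain hv, h0, zero_mul, zero_sub] at hp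
  have h1 : negV (tau c) ∈ tight J v := by
    rw [mem_tight hJ hv]
    exact ⟨hτJ, by rw [rf_negV, h0, neg_zero]⟩
  have h2 := hx.2 _ h1
  rw [rf_negV] at h2
  nlinarith

/-- the direction of the pivot from `v` -/
noncomputable def dv (c cp : List ℤ) (J : List (List ℤ)) (v : List ℤ) :
    EuclideanSpace ℝ (Fin c.length) := dd c (lv c.length (pdir c cp J v))

/-- the parameter of the pivot from `v` -/
noncomputable def lamv (c cp : List ℤ) (J : List (List ℤ)) (v : List ℤ) : ℝ :=
  -(rf c.length cp (dv c cp J v)) / rf c.length c (dv c cp J v)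

/-- **The shadow vertex pivot.** -/
theorem shstep_some (hc : 0 < c.length) (hcp : cp.length = c.length) (hJ : Len c.length J)
    (hτJ : negV (tau c) ∈ J) (hv : Vx c [] J v) {lam : ℝ} (hopt : DirOpt c cp J v lam)
    (h : shstep c cp J v = some w) :
    Step c [] J v w ∧ Dir c J v (dv c cp J v) ∧ 0 < rf c.length c (dv c cp J v) ∧
      lam ≤ lamv c cp J v ∧ DirOpt c cp J v (lamv c cp J v) ∧
      (0 < rf c.length (tau c) (lv c.length w) → Vx c [] J w ∧
        DirOpt c cp J w (lamv c cp J v) ∧
        ∃ r ∈ J, rf c.length r (lv c.length w) = 0 ∧ 0 < rf c.length r (dv c cp J v)) := by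
  have hE0 : Len c.length ([] : List (List ℤ)) := fun r hr => by simp at hr
  unfold shstep at h
  split_ifs at h with hf
  rw [Option.some.injEq] at h
  obtain ⟨p1, p2, p3, p4, p5, p6⟩ := pdir_spec hc hcp hJ hv hopt hf
  set x := pdir c cp J v with hx
  have hd : dv c cp J v = dd c (lv c.length x) := rfl
  rw [← hd] at p4 p5 p6
  set d := dv c cp J v with hdd
  have hγ : 0 < rf c.length c d := by rw [p4]; exact p3
  have hlv : lv c.length (low c x) = d := lv_low p1
  have hll : (low c x).length = c.length := length_low p1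
  -- the parameter
  have hlam : lamv c cp J v * rf c.length c d = -(rf c.length cp d) :=
    div_mul_cancel₀ _ hγ.ne'
  have hle : lam ≤ lamv c cp J v := by
    have := hopt d p5
    have h1 : lam * rf c.length c d ≤ lamv c cp J v * rf c.length c d := by linarith
    exact le_of_mul_le_mul_right h1 hγ
  have hopt' : DirOpt c cp J v (lamv c cp J v) := by
    intro d' hd'
    rcases le_total 0 (rf c.length c d') with h3 | h3
    · have h4 := p6 d' hd' h3
      have h5 : (rf c.length cp d' + lamv c cp J v * rf c.length c d') * rf c.length c d ≤ 0 := by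
        have : lamv c cp J v * rf c.length c d' * rf c.length c d =
            -(rf c.length cp d) * rf c.length c d' := by rw [← hlam]; ring
        rw [add_mul, this]
        linarith
      by_contra hcon
      push Not at hcon
      have := mul_pos hcon hγ
      linarith
    · have h4 := hopt d' hd'
      have := mul_le_mul_of_nonpos_right hle h3
      linarith
  -- the edge
  have hup : Up (rf c.length (tau c)) (rf c.length c) (lv c.length v) d := by
    unfold Up
    rw [p5.1, mul_zero]
    exact mul_pos hγ hv.pos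
  have hadj : Adj (rf c.length) [] J (lv c.length v) d := by
    intro h' a1 a2
    set t := rf c.length (tau c) (lv c.length v) with ht
    have ht0 : 0 < t := hv.pos
    set h'' := h' - (rf c.length (tau c) h' / t) • lv c.length v with hh''
    have b1 : rf c.length (tau c) h'' = 0 := by
      rw [hh'', map_sub, map_smul, smul_eq_mul, ← ht, div_mul_cancel₀ _ ht0.ne', sub_self]
    obtain ⟨s, hs⟩ := p2.ker (h'' + (rf c.length c h'') • eT c) (fun r hr => by
        rw [List.mem_singleton] at hr
        subst hr
        rw [rf_cE, dd_add hc b1, map_add, map_smul, b1, tau_eT hc, smul_eq_mul]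
        ring) fun r hr h0 => by
          rcases mem_jl.1 hr with rfl | hr
          · rw [rf_negV, neg_eq_zero] at h0
            exact absurd h0 p3.ne'
          · obtain ⟨r', hr', rfl⟩ := List.mem_map.1 hr
            obtain ⟨c1, c2⟩ := (mem_tight hJ hv.len).1 hr'
            rw [rf_low (hJ r' c1)] at h0 ⊢
            rw [dd_add hc b1, hh'', map_sub, map_smul, c2, smul_zero, sub_zero]
            exact a2 r' c1 c2 h0
    have e1 : h'' = s • d := by
      have := congrArg (dd c) hs
      rw [dd_add hc b1] at this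
      rw [this, hd, dd, dd, map_smul, smul_sub, smul_smul, smul_eq_mul]
    refine ⟨rf c.length (tau c) h' / t, s, ?_⟩
    rw [← e1, hh'']
    abel
  have hT : ∀ q ∈ J, rf c.length q (lv c.length v) = 0 →
      rf c.length q (lv c.length (low c x)) ≤ 0 := by rw [hlv]; exact p5.2
  have hex : ∃ r ∈ J, rf c.length r (lv c.length v) < 0 :=
    ⟨_, hτJ, by rw [rf_negV]; have := hv.pos; linarith⟩
  obtain ⟨o1, r, hr, hrv, o2, o3⟩ := other_spec hJ hv.len hll hv.ext.mem hT hex
  rw [hlv] at o2 o3
  obtain ⟨b1, b2⟩ := blocked_ext (E := []) (by simp) (by simp) hup.not_smul hadj hr hrv o3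
  have b3 := blocked_up (b := rf c.length r d) (neg_pos.2 hrv) hup
  have hro : rf c.length r ((-(rf c.length r (lv c.length v))) • d +
    (rf c.length r d) • lv c.length v) = 0 := blocked_row
  have hτo : rf c.length (tau c) ((-(rf c.length r (lv c.length v))) • d +
      (rf c.length r d) • lv c.length v) =
      rf c.length r d * rf c.length (tau c) (lv c.length v) := by
    rw [map_add, map_smul, map_smul, p5.1, smul_zero, zero_add, smul_eq_mul]
  rw [← o2] at b1 b2 b3 hro hτo
  obtain ⟨n1, s, hs, n2⟩ := normV_spec hE0 hJ o1 b1 (pos_or hτJ b1.mem b3 hv.pos).2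
  rw [h] at n1 n2
  have hst : Step c [] J v w := ⟨n1, hv.pos, by rw [n2]; exact b1.smul hs,
    by rw [n2]; exact b2.smul_right hs.ne', by rw [n2]; exact b3.smul_right hs⟩
  refine ⟨hst, p5, hγ, hle, hopt', fun hτ => ?_⟩
  have hw : Vx c [] J w := ⟨n1, hst.ext, hτ⟩
  have hrd : 0 < rf c.length r d := by
    rw [n2, map_smul, smul_eq_mul] at hτ
    have h1 : 0 < rf c.length (tau c) (lv c.length (other J v (low c x))) :=
      (mul_pos_iff_of_pos_left hs).1 hτ
    rw [hτo] at h1
    exact (mul_pos_iff_of_pos_right hv.pos).1 h1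
  refine ⟨hw, fun d' hd' => ?_, r, hr, by rw [n2, map_smul, hro, smul_zero], hrd⟩
  refine dir_le (f := fl c cp (lamv c cp J v)) hw (fun y hy => ?_) hd'
  have k1 := opt_of_dir (f := fl c cp (lamv c cp J v)) hv (fun d' hd' => hopt' d' hd')
    (x := y) fun r hr _ => hy.2 r hr
  have k2 : fl c cp (lamv c cp J v) d = 0 := by rw [fl_apply, hlam]; ring
  have k3 : lv c.length w = s • ((-(rf c.length r (lv c.length v))) • d +
      (rf c.length r d) • lv c.length v) := by rw [n2, o2]
  have k4 : fl c cp (lamv c cp J v) (lv c.length w) =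
      s * (rf c.length r d * fl c cp (lamv c cp J v) (lv c.length v)) := by
    rw [k3, map_smul, map_add, map_smul, map_smul, k2, smul_zero, zero_add, smul_eq_mul,
      smul_eq_mul]
  have k5 : rf c.length (tau c) (lv c.length w) =
      s * (rf c.length r d * rf c.length (tau c) (lv c.length v)) := by
    rw [k3, map_smul, map_add, map_smul, map_smul, p5.1, smul_zero, zero_add, smul_eq_mul,
      smul_eq_mul]
  rw [k4, k5]
  have k6 := mul_le_mul_of_nonneg_left k1 (mul_pos hs hrd).le
  linarith

end Pool.Agent.Y644.QV
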